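import Pool.Agent.Work.MP_f2148a_nt.M56.S1.SDefs
import Pool.Agent.Work.MP_f2148a_nt.M56.H.Defs

set_option autoImplicit false

/-!
# MP_f2148a_nt, block S2 (counting, helper4): definitions (fixed, do not change)

`A = K ^ (25/63)`; a giant has `x ≥ K ^ (53/20)`. `Dt` = a giant pair with own data, `InC` = the
giant lies in the cell `D ≤ Δ ≤ 2D`, `S ≤ σ ≤ 2S`, `Q ≤ 1/τ ≤ R`; `Pf` = the points (with respect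
to a reference solution) produced by the giants which are `ρ`-close to the reference giant.
-/

namespace Pool.Agent.Work.MP_f2148a_nt.M56.S2

/-- An integral point with own data. -/
structure Dt where
  /-- abscissa -/
  x : ℤ
  /-- ordinate -/
  y : ℤ
  /-- first integer -/
  α : ℤ
  /-- second integer -/
  β : ℤ
  /-- the approximation -/
  ω : ℝ
  /-- the scale -/
  τ : ℝ
  /-- the leading coefficient -/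
  Δ : ℝ
  /-- first normalized coefficient -/
  l : ℝ
  /-- second normalized coefficient -/
  c : ℝ
  /-- size of the dual vector -/
  σ : ℝ

/-- The cubic of the data. -/
def Dt.z (t : Dt) : Cub := Z0 t.x t.y t.α t.β

/-- A primitive giant with own data. -/
structure Gi (K : ℝ) (t : Dt) : Prop where
  own : Own K (K ^ (25 / 63 : ℝ)) t.x t.y t.α t.β t.ω t.τ t.Δ t.l t.c t.σ
  y_pos : 0 < t.y
  x_ge : K ^ (53 / 20 : ℝ) ≤ (t.x : ℝ)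
  k_ne : t.y ^ 2 - t.x ^ 3 ≠ 0
  k_le : |((t.y ^ 2 - t.x ^ 3 : ℤ) : ℝ)| ≤ K
  prim : ∀ d : ℤ, d ^ 2 ∣ t.x → d ^ 3 ∣ t.y → IsUnit d

/-- The giant lies in a cell. -/
structure InC (K D S Q R : ℝ) (t : Dt) : Prop where
  gi : Gi K t
  d1 : D ≤ t.Δ
  d2 : t.Δ ≤ 2 * D
  s1 : S ≤ t.σ
  s2 : t.σ ≤ 2 * S
  q1 : Q ≤ 1 / t.τ
  q2 : 1 / t.τ ≤ R

/-- Type I. -/
def TI (K : ℝ) (t : Dt) : Prop :=
  |t.l| = 1 ∧ |t.c| ≤ 1 / 100 ∧ |t.c| * (t.Δ * t.σ) ^ 3 ≤ 20 * K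

/-- Type II. -/
def TII (K : ℝ) (t : Dt) : Prop :=
  t.Δ * t.σ ≤ 10 * K ^ (1 / 3 : ℝ) ∧ t.Δ * K ^ (25 / 63 : ℝ) ≤ 30 * K ^ (1 / 2 : ℝ)

/-- The real coordinate `ξ`. -/
noncomputable def xi (ω τ : ℝ) (X Y : ℤ) : ℝ := ((X : ℝ) + ω * Y) / τ

/-- The real coordinate `d₂`. -/
noncomputable def dd (α : ℤ) (ω τ : ℝ) (s t : ℤ) : ℝ :=
  -(2 * ω * s) / (3 * α * τ) + t * α / (3 * τ)

/-- The points in the box of radius `ρ'` of a reference solution (`Q₁ ≤ |ξ| ≤ Q₂`). -/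
structure Pf (K : ℝ) (x y α β : ℤ) (ω τ ρ' S Q₁ Q₂ : ℝ) (P : Finset (ℤ × ℤ × ℤ × ℤ)) : Prop where
  val : ∀ p ∈ P, 3 * p.1 * F0 x y p.2.2.1 p.2.2.2 + p.2.1 * G1 x y α β p.2.2.1 p.2.2.2 = 3
  jne : ∀ p ∈ P, J432 (q4 x y α β p.1 p.2.1) ≠ 0
  rr : ∀ p ∈ P, |τ * (p.2.2.2 : ℝ)| ≤ ρ' * |xi ω τ p.2.2.1 p.2.2.2|
  xi1 : ∀ p ∈ P, Q₁ ≤ |xi ω τ p.2.2.1 p.2.2.2|
  xi2 : ∀ p ∈ P, |xi ω τ p.2.2.1 p.2.2.2| ≤ Q₂
  dd1 : ∀ p ∈ P, S / 2 ≤ dd α ω τ p.1 p.2.1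
  dd2 : ∀ p ∈ P, dd α ω τ p.1 p.2.1 ≤ 4 * S
  jle : ∀ p ∈ P, |((J432 (q4 x y α β p.1 p.2.1) : ℤ) : ℝ)| ≤ 46656 * K
  hge : ∀ p ∈ P, 1296 * K ^ (53 / 20 : ℝ) ≤
    |((Hq (q4 x y α β p.1 p.2.1) p.2.2.1 p.2.2.2 : ℤ) : ℝ)|
  np : ∀ p ∈ P, ∀ p' ∈ P, p ≠ p' → p.1 * p'.2.1 ≠ p'.1 * p.2.1
  inv : ∀ p ∈ P, ∀ p' ∈ P, p ≠ p' →
    (Hq (q4 x y α β p.1 p.2.1) p.2.2.1 p.2.2.2) ^ 3 * J432 (q4 x y α β p'.1 p'.2.1)
      ≠ (Hq (q4 x y α β p'.1 p'.2.1) p'.2.2.1 p'.2.2.2) ^ 3 * J432 (q4 x y α β p.1 p.2.1)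

/-- Different members of the family are different integral points. -/
def Inj2 (J : Finset Dt) : Prop := ∀ t ∈ J, ∀ t' ∈ J, t.x = t'.x → t.y = t'.y → t = t'

end Pool.Agent.Work.MP_f2148a_nt.M56.S2
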