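import Pool.Agent.Work.MP_f2148a_nt.M56.GDefs
import Pool.Agent.Work.MP_f2148a_nt.M56.S1.Main
import Pool.Agent.Work.MP_f2148a_nt.M56.S2.Defs

set_option autoImplicit false

/-!
# S2/OwnG: every giant has own data
-/

namespace Pool.Agent.Work.MP_f2148a_nt.M56.S2

theorem ownG : ∃ K₀ : ℝ, 1 ≤ K₀ ∧ ∀ K : ℝ, K₀ ≤ K → ∀ p : ℤ × ℤ, GiantP K p →
    ∃ t : Dt, Gi K t ∧ t.x = p.1 ∧ t.y = p.2 := by
  obtain ⟨K₀, hK₀, H⟩ := own_exists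
  refine ⟨K₀, hK₀, fun K hK p hp => ?_⟩
  obtain ⟨hy, hx, hk1, hk2, hprim⟩ := hp
  have hK1 : 1 ≤ K := hK₀.trans hK
  have hk0 : p.2 ^ 2 - p.1 ^ 3 ≠ 0 := by
    intro h0
    rw [h0] at hk1
    simp only [Int.cast_zero, abs_zero] at hk1
    linarith
  obtain ⟨α, β, ω, τ, Δ, l, c, σ, hown⟩ := H K hK (K ^ (25 / 63 : ℝ))
    (Real.rpow_le_rpow_of_exponent_le hK1 (by norm_num))
    (Real.rpow_le_rpow_of_exponent_le hK1 (by norm_num)) p.1 p.2 hy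
    ((Real.rpow_le_rpow_of_exponent_le hK1 (by norm_num)).trans hx)
    (fun h => hk0 (by rw [h, sub_self])) hk2
  exact ⟨⟨p.1, p.2, α, β, ω, τ, Δ, l, c, σ⟩, ⟨hown, hy, hx, hk0, hk2, hprim⟩, rfl, rfl⟩

end Pool.Agent.Work.MP_f2148a_nt.M56.S2
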