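import Pool.Agent.Work.MP_f2148a_nt.M56.GDefs
import Pool.Agent.Work.MP_f2148a_nt.HE.EffBound

set_option autoImplicit false

/-!
# S2/Small (S-M): bounded `K`

PROOF. `k = y²-x³ ≠ 0` (`K/2 < |k|`, `K ≥ 1`), `|k| ≤ K ≤ K₀`, `y² = x³+k`. `HallEff.eff_bound` (`HE/EffBound.lean`;
`∃ C, 0 ≤ C ∧ ∀ k x y : ℤ, k ≠ 0 → y ^ 2 = x ^ 3 + k → max |x| |y| ≤ exp (exp (C * (1 + log |k|) ^ 2))`):
`|x|, |y| ≤ exp(exp(C(1+log|k|)²)) ≤ exp(exp(C(1+log K₀)²)) =: B` (`log|k| ≥ 0`). So `S ⊆ Icc (-⌈B⌉) ⌈B⌉ ×ˢ Icc (-⌈B⌉) ⌈B⌉`, whose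
cardinality does not depend on `K`.
-/

namespace Pool.Agent.Work.MP_f2148a_nt.M56.S2

theorem small (K₀ : ℝ) : ∃ N : ℝ, 0 ≤ N ∧ ∀ K : ℝ, 1 ≤ K → K ≤ K₀ →
    ∀ S : Finset (ℤ × ℤ), (∀ p ∈ S, GiantP K p) → (S.card : ℝ) ≤ N := by
  obtain ⟨C, hC, H⟩ := HallEff.eff_bound
  obtain ⟨B, hB⟩ : ∃ B : ℤ, B = ⌈Real.exp (Real.exp (C * (1 + Real.log (max K₀ 1)) ^ 2))⌉ :=
    ⟨_, rfl⟩
  refine ⟨((Finset.Icc (-B) B ×ˢ Finset.Icc (-B) B).card : ℝ), by positivity,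
    fun K hK hK0 S hS => ?_⟩
  have hsub : S ⊆ Finset.Icc (-B) B ×ˢ Finset.Icc (-B) B := by
    intro p hp
    obtain ⟨-, -, hk1, hk2, -⟩ := hS p hp
    have hk0 : p.2 ^ 2 - p.1 ^ 3 ≠ 0 := by
      intro h0
      rw [h0] at hk1
      simp only [Int.cast_zero, abs_zero] at hk1
      linarith
    have h1 := H (p.2 ^ 2 - p.1 ^ 3) p.1 p.2 hk0 (by ring)
    have hk3 : 1 ≤ |((p.2 ^ 2 - p.1 ^ 3 : ℤ) : ℝ)| := by
      have := Int.one_le_abs hk0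
      exact_mod_cast this
    have h2 : Real.log |((p.2 ^ 2 - p.1 ^ 3 : ℤ) : ℝ)| ≤ Real.log (max K₀ 1) :=
      Real.log_le_log (by linarith) (hk2.trans (hK0.trans (le_max_left _ _)))
    have h3 : 0 ≤ Real.log |((p.2 ^ 2 - p.1 ^ 3 : ℤ) : ℝ)| := Real.log_nonneg hk3
    have h4 : Real.exp (Real.exp (C * (1 + Real.log |((p.2 ^ 2 - p.1 ^ 3 : ℤ) : ℝ)|) ^ 2))
        ≤ (B : ℝ) := by
      rw [hB]
      refine le_trans ?_ (Int.le_ceil _)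
      gcongr
    have h5 : |(p.1 : ℝ)| ≤ (B : ℝ) := (le_max_left _ _).trans (h1.trans h4)
    have h6 : |(p.2 : ℝ)| ≤ (B : ℝ) := (le_max_right _ _).trans (h1.trans h4)
    have h7 : |p.1| ≤ B := by exact_mod_cast h5
    have h8 : |p.2| ≤ B := by exact_mod_cast h6
    rw [Finset.mem_product, Finset.mem_Icc, Finset.mem_Icc]
    exact ⟨abs_le.1 h7, abs_le.1 h8⟩
  exact_mod_cast Finset.card_le_card hsub

end Pool.Agent.Work.MP_f2148a_nt.M56.S2
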