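import Pool.Agent.Work.MP_f2148a_nt.M56.S2.CellL
import Pool.Agent.Work.MP_f2148a_nt.HE.EffBound

set_option autoImplicit false

/-!
# S2/SumL (M): sum over the cells, large range

PROOF. `C₁, η` from `cellL`. For `t ∈ J`: `i = ⌊Real.logb 2 (8Δ)⌋₊`, `j = ⌊Real.logb 2 σ⌋₊` as in `S2/SumM`,
`k = ⌊Real.logb (1+η) (log(1/τ)/(C₁ log K))⌋₊` (the argument is `≥ 1`). With `Q_k = exp(C₁ log K · (1+η)^k) = K^(C₁(1+η)^k) ≥ K^(C₁)`:
`Q_k ≤ 1/τ ≤ Q_k^(1+η)`. Bounds: `1/τ ≤ x`: by `Own.x_ge`, `Δσ ≤ τ²√x` and `Δσ ≥ 1` (`Δ ≥ 29/100`, `4σ² ≥ A`, `K` large), so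
`1/τ² ≤ √x`, `1/τ ≤ x`. `eff_bound` (`HE/EffBound.lean`, namespace: look; `y² = x³+k`, `|k| ≤ K`): `log x ≤ exp(C(1+log K)²)`, so
`k ≤ log(log x)/log(1+η) ≤ C'(1+log K)²` and also `log(1+log Q_k) ≤ log(1+log x) ≤ C'(1+log K)²`.
Number of keys `≤ (C log K)²·C'(1+log K)²`, each class `≤ C K^(828/1000)(1+C'(1+log K)²)` by `cellL`
(`d = log(2^i/8)/log K`, `s = log(2^j)/log K`). The total is `≤ C'' K^(83/100)`.
-/

namespace Pool.Agent.Work.MP_f2148a_nt.M56.S2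

private theorem sl_floor {b u : ℝ} (hb : 1 < b) (hu : 1 ≤ u) :
    b ^ ⌊Real.logb b u⌋₊ ≤ u ∧ u ≤ b ^ (⌊Real.logb b u⌋₊ + 1) := by
  have hb0 : 0 < b := by linarith
  have hu0 : 0 < u := by linarith
  have hl : 0 ≤ Real.logb b u := Real.logb_nonneg hb hu
  have h1 : (⌊Real.logb b u⌋₊ : ℝ) ≤ Real.logb b u := Nat.floor_le hl
  have h2 : Real.logb b u < ⌊Real.logb b u⌋₊ + 1 := Nat.lt_floor_add_one _
  have e : b ^ Real.logb b u = u := Real.rpow_logb hb0 hb.ne' hu0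
  constructor
  · calc b ^ ⌊Real.logb b u⌋₊ = b ^ ((⌊Real.logb b u⌋₊ : ℕ) : ℝ) := (Real.rpow_natCast _ _).symm
      _ ≤ b ^ Real.logb b u := Real.rpow_le_rpow_of_exponent_le hb.le h1
      _ = u := e
  · calc u = b ^ Real.logb b u := e.symm
      _ ≤ b ^ ((⌊Real.logb b u⌋₊ + 1 : ℕ) : ℝ) := by
          apply Real.rpow_le_rpow_of_exponent_le hb.le
          push_cast
          exact h2.le
      _ = _ := Real.rpow_natCast _ _

private theorem sl_facts : ∃ K₀ : ℝ, 3 ≤ K₀ ∧ ∀ K : ℝ, K₀ ≤ K → ∀ t : Dt, Gi K t →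
    1 ≤ 8 * t.Δ ∧ 8 * t.Δ ≤ K ^ 2 ∧ 1 ≤ t.σ ∧ t.σ ≤ K ∧
      (1 ≤ 1 / t.τ → 1 / t.τ ≤ (t.x : ℝ)) := by
  refine ⟨10 ^ 100, by norm_num, fun K hK t ht => ?_⟩
  have hK0 : 0 < K := lt_of_lt_of_le (by norm_num) hK
  have hK1 : 1 ≤ K := le_trans (by norm_num) hK
  have hbase : (100 : ℝ) ≤ K ^ (1 / 50 : ℝ) := by
    have h1 : ((10 : ℝ) ^ 100) ^ (1 / 50 : ℝ) = 100 := by
      rw [← Real.rpow_natCast, ← Real.rpow_mul (by norm_num)]
      norm_num
    rw [← h1]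
    exact Real.rpow_le_rpow (by norm_num) hK (by norm_num)
  have hbig : ∀ a : ℝ, 1 / 50 ≤ a → (100 : ℝ) ≤ K ^ a := fun a ha =>
    hbase.trans (Real.rpow_le_rpow_of_exponent_le hK1 ha)
  have hA : (100 : ℝ) ≤ K ^ (25 / 63 : ℝ) := hbig _ (by norm_num)
  have hΔ : 29 / 100 ≤ t.Δ := ht.own.D_ge
  have hΔ2 : t.Δ ^ 2 ≤ K ^ (25 / 63 : ℝ) := ht.own.D_le
  have hσA : K ^ (25 / 63 : ℝ) ≤ 4 * t.σ ^ 2 := ht.own.sig_ge
  have hτ : 0 < t.τ := ht.own.tau_pos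
  have hσ0 : 0 ≤ t.σ := by
    rw [ht.own.sig]
    have hα : (0 : ℝ) < t.α := by
      have := ht.own.a_pos
      exact_mod_cast (by omega : 0 < t.α)
    positivity
  have hσ5 : 5 ≤ t.σ := by nlinarith
  have hAA : K ^ (25 / 63 : ℝ) ≤ K := by
    calc K ^ (25 / 63 : ℝ) ≤ K ^ (1 : ℝ) := Real.rpow_le_rpow_of_exponent_le hK1 (by norm_num)
      _ = K := Real.rpow_one K
  have hΔK : t.Δ ≤ K := by nlinarith
  have hσK : t.σ ≤ K := by
    have h1 := ht.own.Dsig_le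
    have h2 : (K ^ (25 / 63 : ℝ)) ^ 2 = K ^ (50 / 63 : ℝ) := by
      rw [← Real.rpow_natCast, ← Real.rpow_mul hK0.le]
      norm_num
    have h3 : K = K ^ (13 / 63 : ℝ) * K ^ (50 / 63 : ℝ) := by
      rw [← Real.rpow_add hK0]
      norm_num
    have h4 : (100 : ℝ) ≤ K ^ (13 / 63 : ℝ) := hbig _ (by norm_num)
    have h5 : 0 < K ^ (50 / 63 : ℝ) := Real.rpow_pos_of_pos hK0 _
    rw [h2] at h1
    have h6 : 29 / 100 * t.σ ≤ t.Δ * t.σ := mul_le_mul_of_nonneg_right hΔ hσ0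
    have h7 : 100 * K ^ (50 / 63 : ℝ) ≤ K ^ (13 / 63 : ℝ) * K ^ (50 / 63 : ℝ) :=
      mul_le_mul_of_nonneg_right h4 h5.le
    rw [← h3] at h7
    linarith
  refine ⟨by linarith, ?_, by linarith, hσK, fun h1 => ?_⟩
  · nlinarith
  · have h2 : t.Δ * t.σ ≤ t.τ ^ 2 * Real.sqrt t.x := ht.own.x_ge
    have h3 : 1 ≤ t.Δ * t.σ := by nlinarith
    have h4 : (1 / t.τ) ^ 2 ≤ Real.sqrt t.x := by
      rw [div_pow, one_pow, div_le_iff₀ (by positivity)]
      linarith [mul_comm (Real.sqrt (t.x : ℝ)) (t.τ ^ 2)]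
    have hx : (0 : ℝ) ≤ t.x := by
      have := ht.x_ge
      have h6 : 0 ≤ K ^ (53 / 20 : ℝ) := Real.rpow_nonneg hK0.le _
      linarith
    have h5 : Real.sqrt t.x ^ 2 = t.x := Real.sq_sqrt hx
    have h6 : (1 / t.τ) ≤ Real.sqrt t.x := by nlinarith
    nlinarith

theorem sumL : ∃ C₁ C K₀ : ℝ, 1 ≤ C₁ ∧ 1 < K₀ ∧ ∀ K : ℝ, K₀ ≤ K →
    ∀ J : Finset Dt, (∀ t ∈ J, Gi K t ∧ K ^ C₁ ≤ 1 / t.τ) → Inj2 J →
      (J.card : ℝ) ≤ C * K ^ (83 / 100 : ℝ) := by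
  classical
  obtain ⟨C₁, η, C, K₀, hη, hC₁, hK₀, H⟩ := cellL
  obtain ⟨Ce, hCe, HE⟩ := HallEff.eff_bound
  obtain ⟨K₂, hK₂, HF⟩ := sl_facts
  have hℓ : 0 < Real.log (1 + η) := Real.log_pos (by linarith)
  refine ⟨C₁, |C| * (8 * (Ce / Real.log (1 + η) + 1) * (2 + Ce) * 3001 ^ 6), max K₀ K₂, hC₁,
    lt_max_of_lt_left hK₀, fun K hK J hJ hinj => ?_⟩
  have hKK : K₀ ≤ K := (le_max_left _ _).trans hK
  have hKK2 : K₂ ≤ K := (le_max_right _ _).trans hK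
  have hK3 : 3 ≤ K := hK₂.trans hKK2
  have hK0 : 0 < K := by linarith
  have hK1 : 1 < K := by linarith
  obtain ⟨L, hL⟩ : ∃ L : ℝ, L = Real.log K := ⟨_, rfl⟩
  have hL1 : 1 ≤ L := by
    rw [hL, Real.le_log_iff_exp_le hK0]
    exact Real.exp_one_lt_three.le.trans hK3
  have hCL : 1 ≤ C₁ * L := by nlinarith
  have hCL0 : 0 < C₁ * L := by linarith
  obtain ⟨E, hE⟩ : ∃ E : ℝ, E = Ce * (1 + L) ^ 2 := ⟨_, rfl⟩
  have hE0 : 0 ≤ E := by rw [hE]; positivity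
  have hlog2 : 1 / 2 < Real.log 2 := by
    have := Real.log_two_gt_d9
    linarith
  -- the bound for `log (1 / τ)`
  have hτb : ∀ t ∈ J, 1 ≤ Real.log (1 / t.τ) / (C₁ * L) ∧ Real.log (1 / t.τ) ≤ Real.exp E := by
    intro t ht
    obtain ⟨hG, hq⟩ := hJ t ht
    have hKC : 1 ≤ K ^ C₁ := Real.one_le_rpow hK1.le (by linarith)
    have hτ1 : 1 ≤ 1 / t.τ := hKC.trans hq
    have hτ0 : 0 < 1 / t.τ := by linarith
    constructor
    · rw [le_div_iff₀ hCL0, one_mul]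
      have := Real.log_le_log (by linarith) hq
      rwa [Real.log_rpow hK0, ← hL] at this
    · obtain ⟨-, -, -, -, h5⟩ := HF K hKK2 t hG
      have h6 := h5 hτ1
      have h7 := HE (t.y ^ 2 - t.x ^ 3) t.x t.y hG.k_ne (by ring)
      have hk3 : 1 ≤ |((t.y ^ 2 - t.x ^ 3 : ℤ) : ℝ)| := by
        have := Int.one_le_abs hG.k_ne
        exact_mod_cast this
      have h8 : Real.log |((t.y ^ 2 - t.x ^ 3 : ℤ) : ℝ)| ≤ L := by
        rw [hL]
        exact Real.log_le_log (by linarith) hG.k_le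
      have h9 : 0 ≤ Real.log |((t.y ^ 2 - t.x ^ 3 : ℤ) : ℝ)| := Real.log_nonneg hk3
      have h10 : (t.x : ℝ) ≤ Real.exp (Real.exp E) := by
        calc (t.x : ℝ) ≤ |(t.x : ℝ)| := le_abs_self _
          _ ≤ _ := (le_max_left _ _).trans h7
          _ ≤ Real.exp (Real.exp E) := by
              rw [hE]
              gcongr
      rw [Real.log_le_iff_le_exp hτ0]
      exact h6.trans h10
  obtain ⟨f, hf⟩ : ∃ f : Dt → ℕ × ℕ × ℕ, ∀ t, f t = (⌊Real.logb 2 (8 * t.Δ)⌋₊,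
    ⌊Real.logb 2 t.σ⌋₊, ⌊Real.logb (1 + η) (Real.log (1 / t.τ) / (C₁ * L))⌋₊) := ⟨_, fun _ => rfl⟩
  -- number of keys
  have himg : J.image f ⊆ Finset.range (⌊4 * L⌋₊ + 1) ×ˢ Finset.range (⌊2 * L⌋₊ + 1) ×ˢ
      Finset.range (⌊E / Real.log (1 + η)⌋₊ + 1) := by
    intro a ha
    obtain ⟨t, ht, rfl⟩ := Finset.mem_image.1 ha
    obtain ⟨hG, hq⟩ := hJ t ht
    obtain ⟨g1, g2, g3, g4, -⟩ := HF K hKK2 t hG
    obtain ⟨g5, g6⟩ := hτb t ht
    rw [hf]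
    simp only [Finset.mem_product, Finset.mem_range]
    refine ⟨Nat.lt_succ_of_le (Nat.floor_le_floor ?_), Nat.lt_succ_of_le (Nat.floor_le_floor ?_),
      Nat.lt_succ_of_le (Nat.floor_le_floor ?_)⟩
    · rw [Real.logb, div_le_iff₀ (by linarith)]
      have h1 : Real.log (8 * t.Δ) ≤ Real.log (K ^ 2) := Real.log_le_log (by linarith) g2
      rw [Real.log_pow, ← hL] at h1
      push_cast at h1
      nlinarith
    · rw [Real.logb, div_le_iff₀ (by linarith)]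
      have h1 : Real.log t.σ ≤ Real.log K := Real.log_le_log (by linarith) g4
      rw [← hL] at h1
      nlinarith
    · rw [Real.logb]
      apply div_le_div_of_nonneg_right _ hℓ.le
      have hpos : 0 < Real.log (1 / t.τ) := by
        by_contra h0
        push Not at h0
        have : Real.log (1 / t.τ) / (C₁ * L) ≤ 0 := div_nonpos_of_nonpos_of_nonneg h0 hCL0.le
        linarith
      rw [Real.log_div hpos.ne' hCL0.ne']
      have h1 : Real.log (Real.log (1 / t.τ)) ≤ E := by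
        rw [Real.log_le_iff_le_exp hpos]
        exact g6
      have h2 : 0 ≤ Real.log (C₁ * L) := Real.log_nonneg hCL
      linarith
  -- one class
  have hcls : ∀ a ∈ J.image f, (J.filter fun t => f t = a).card
      ≤ ⌊|C| * K ^ (828 / 1000 : ℝ) * (2 + E)⌋₊ := by
    intro a ha
    apply Nat.le_floor
    obtain ⟨t₀, ht₀, hta⟩ := Finset.mem_image.1 ha
    obtain ⟨i, j, k⟩ := a
    obtain ⟨Qk, hQk⟩ : ∃ Qk : ℝ, Qk = K ^ (C₁ * (1 + η) ^ k) := ⟨_, rfl⟩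
    have hQk0 : 0 < Qk := by rw [hQk]; exact Real.rpow_pos_of_pos hK0 _
    have hpk : 1 ≤ (1 + η) ^ k := one_le_pow₀ (by linarith)
    have hQ1 : K ^ C₁ ≤ Qk := by
      rw [hQk]
      apply Real.rpow_le_rpow_of_exponent_le hK1.le
      nlinarith
    have hlogQ : Real.log Qk = C₁ * L * (1 + η) ^ k := by
      rw [hQk, Real.log_rpow hK0, ← hL]
      ring
    have hlogQ0 : 0 < Real.log Qk := by rw [hlogQ]; positivity
    -- position of the members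
    have hpos : ∀ t ∈ J, f t = (i, j, k) →
        InC K (K ^ Real.logb K (2 ^ i / 8)) (K ^ Real.logb K (2 ^ j)) Qk (Qk ^ (1 + η)) t := by
      intro t ht hfa
      obtain ⟨hG, hq⟩ := hJ t ht
      obtain ⟨g1, g2, g3, g4, -⟩ := HF K hKK2 t hG
      obtain ⟨g5, g6⟩ := hτb t ht
      rw [hf] at hfa
      simp only [Prod.mk.injEq] at hfa
      obtain ⟨e1, e2, e3⟩ := hfa
      have f1 := sl_floor (by norm_num : (1 : ℝ) < 2) g1
      have f2 := sl_floor (by norm_num : (1 : ℝ) < 2) g3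
      have f3 := sl_floor (by linarith : 1 < 1 + η) g5
      rw [e1] at f1
      rw [e2] at f2
      rw [e3] at f3
      have hd : K ^ Real.logb K (2 ^ i / 8) = 2 ^ i / 8 :=
        Real.rpow_logb hK0 hK1.ne' (by positivity)
      have hs : K ^ Real.logb K (2 ^ j) = 2 ^ j := Real.rpow_logb hK0 hK1.ne' (by positivity)
      have hτ0 : 0 < 1 / t.τ := lt_of_lt_of_le (Real.rpow_pos_of_pos hK0 _) hq
      rw [le_div_iff₀ hCL0, div_le_iff₀ hCL0] at f3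
      refine ⟨hG, ?_, ?_, ?_, ?_, ?_, ?_⟩
      · rw [hd]; linarith [f1.1]
      · rw [hd]
        have := f1.2
        rw [pow_succ] at this
        linarith
      · rw [hs]; exact f2.1
      · rw [hs]
        have := f2.2
        rw [pow_succ] at this
        linarith
      · rw [← Real.log_le_log_iff hQk0 hτ0, hlogQ]
        linarith [f3.1]
      · rw [← Real.log_le_log_iff hτ0 (Real.rpow_pos_of_pos hQk0 _), Real.log_rpow hQk0, hlogQ]
        have := f3.2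
        rw [pow_succ] at this
        linarith
    have h1 := H K hKK (Real.logb K (2 ^ i / 8)) (Real.logb K (2 ^ j)) Qk
      (J.filter fun t => f t = (i, j, k)) hQ1
      (fun t ht => hpos t (Finset.mem_filter.1 ht).1 (Finset.mem_filter.1 ht).2)
      (fun t ht t' ht' => hinj t (Finset.mem_filter.1 ht).1 t' (Finset.mem_filter.1 ht').1)
    have hlogQE : Real.log Qk ≤ Real.exp E := by
      have h2 := (hpos t₀ ht₀ hta).q1
      exact (Real.log_le_log hQk0 h2).trans (hτb t₀ ht₀).2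
    have h2 : Real.log (1 + Real.log Qk) ≤ 1 + E := by
      rw [Real.log_le_iff_le_exp (by linarith)]
      calc 1 + Real.log Qk ≤ Real.exp E + Real.exp E := by
            linarith [Real.one_le_exp hE0]
        _ = 2 * Real.exp E := by ring
        _ ≤ Real.exp 1 * Real.exp E := by
            have := Real.add_one_le_exp (1 : ℝ)
            exact mul_le_mul_of_nonneg_right (by linarith) (Real.exp_pos E).le
        _ = Real.exp (1 + E) := (Real.exp_add _ _).symm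
    have h3 : 0 ≤ Real.log (1 + Real.log Qk) := Real.log_nonneg (by linarith)
    have h4 : 0 ≤ K ^ (828 / 1000 : ℝ) := Real.rpow_nonneg hK0.le _
    refine h1.trans ?_
    calc C * K ^ (828 / 1000 : ℝ) * (1 + Real.log (1 + Real.log Qk))
        ≤ |C| * K ^ (828 / 1000 : ℝ) * (1 + Real.log (1 + Real.log Qk)) := by
          gcongr
          exact le_abs_self C
      _ ≤ |C| * K ^ (828 / 1000 : ℝ) * (2 + E) :=
          mul_le_mul_of_nonneg_left (by linarith) (by positivity)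
  have hmain := Finset.card_le_mul_card_image J _ hcls
  have hcard : ((J.image f).card : ℝ) ≤ (4 * L + 1) * ((2 * L + 1) * (E / Real.log (1 + η) + 1)) := by
    have h1 := Finset.card_le_card himg
    rw [Finset.card_product, Finset.card_product, Finset.card_range, Finset.card_range,
      Finset.card_range] at h1
    have h2 : ((J.image f).card : ℝ) ≤ ((⌊4 * L⌋₊ + 1 : ℕ) : ℝ) * (((⌊2 * L⌋₊ + 1 : ℕ) : ℝ)
        * ((⌊E / Real.log (1 + η)⌋₊ + 1 : ℕ) : ℝ)) := by exact_mod_cast h1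
    refine h2.trans ?_
    push_cast
    gcongr
    · exact Nat.floor_le (by linarith)
    · exact Nat.floor_le (by linarith)
    · exact Nat.floor_le (by positivity)
  have hM6 : (1 + L) ^ 6 ≤ 3001 ^ 6 * K ^ (2 / 1000 : ℝ) := by
    have h1 : L ≤ K ^ (1 / 3000 : ℝ) / (1 / 3000) := by
      rw [hL]
      exact Real.log_le_rpow_div hK0.le (by norm_num)
    have h2 : 1 ≤ K ^ (1 / 3000 : ℝ) := Real.one_le_rpow hK1.le (by norm_num)
    have h3 : 1 + L ≤ 3001 * K ^ (1 / 3000 : ℝ) := by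
      have : K ^ (1 / 3000 : ℝ) / (1 / 3000) = 3000 * K ^ (1 / 3000 : ℝ) := by ring
      linarith
    calc (1 + L) ^ 6 ≤ (3001 * K ^ (1 / 3000 : ℝ)) ^ 6 := by gcongr
      _ = 3001 ^ 6 * K ^ (2 / 1000 : ℝ) := by
          rw [mul_pow, ← Real.rpow_natCast (K ^ (1 / 3000 : ℝ)), ← Real.rpow_mul hK0.le]
          norm_num
  have hP : 0 ≤ K ^ (828 / 1000 : ℝ) := Real.rpow_nonneg hK0.le _
  have hB0 : 0 ≤ |C| * K ^ (828 / 1000 : ℝ) * (2 + E) := by positivity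
  have hJcard : (J.card : ℝ) ≤ (|C| * K ^ (828 / 1000 : ℝ) * (2 + E)) *
      ((4 * L + 1) * ((2 * L + 1) * (E / Real.log (1 + η) + 1))) := by
    calc (J.card : ℝ) ≤ ((⌊|C| * K ^ (828 / 1000 : ℝ) * (2 + E)⌋₊ * (J.image f).card : ℕ) : ℝ) := by
          exact_mod_cast hmain
      _ = (⌊|C| * K ^ (828 / 1000 : ℝ) * (2 + E)⌋₊ : ℝ) * ((J.image f).card : ℝ) := by push_cast; ring
      _ ≤ _ := mul_le_mul (Nat.floor_le hB0) hcard (by positivity) hB0
  obtain ⟨M, hM⟩ : ∃ M : ℝ, M = 1 + L := ⟨_, rfl⟩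
  have hM1 : 1 ≤ M := by linarith
  have hMM : 1 ≤ M ^ 2 := one_le_pow₀ hM1
  have b1 : 4 * L + 1 ≤ 4 * M := by linarith
  have b2 : 2 * L + 1 ≤ 2 * M := by linarith
  have b3 : E / Real.log (1 + η) + 1 ≤ (Ce / Real.log (1 + η) + 1) * M ^ 2 := by
    have : E / Real.log (1 + η) = Ce / Real.log (1 + η) * M ^ 2 := by
      rw [hE, hM]; ring
    rw [this]
    linarith
  have b4 : 2 + E ≤ (2 + Ce) * M ^ 2 := by
    rw [hE, ← hM]
    linarith
  have hd0 : 0 ≤ Ce / Real.log (1 + η) := by positivity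
  calc (J.card : ℝ) ≤ (|C| * K ^ (828 / 1000 : ℝ) * (2 + E)) *
      ((4 * L + 1) * ((2 * L + 1) * (E / Real.log (1 + η) + 1))) := hJcard
    _ ≤ (|C| * K ^ (828 / 1000 : ℝ) * ((2 + Ce) * M ^ 2)) *
      ((4 * M) * ((2 * M) * ((Ce / Real.log (1 + η) + 1) * M ^ 2))) := by gcongr
    _ = |C| * (8 * (Ce / Real.log (1 + η) + 1) * (2 + Ce)) * K ^ (828 / 1000 : ℝ) * M ^ 6 := by ring
    _ ≤ |C| * (8 * (Ce / Real.log (1 + η) + 1) * (2 + Ce)) * K ^ (828 / 1000 : ℝ) *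
        (3001 ^ 6 * K ^ (2 / 1000 : ℝ)) := by
        rw [hM]
        gcongr
    _ = |C| * (8 * (Ce / Real.log (1 + η) + 1) * (2 + Ce) * 3001 ^ 6) *
        (K ^ (828 / 1000 : ℝ) * K ^ (2 / 1000 : ℝ)) := by ring
    _ = _ := by
        rw [← Real.rpow_add hK0]
        norm_num

end Pool.Agent.Work.MP_f2148a_nt.M56.S2
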