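import Pool.Agent.Work.MP_f2148a_nt.M56.S2.Cell

set_option autoImplicit false

/-!
# S2/SumM (M): sum over the cells, bounded range

PROOF. `K` large. For `t ∈ J` put `i = ⌊Real.logb 2 (8Δ)⌋₊`, `j = ⌊Real.logb 2 σ⌋₊`, `k = ⌊Real.logb (9/8) (1/τ)⌋₊`
(`8Δ ≥ 2`, `σ ≥ 1` because `4σ² ≥ A`, `1/τ ≥ K^(1/5)`). Then `2^i/8 ≤ Δ ≤ 2·2^i/8`, `2^j ≤ σ ≤ 2·2^j`,
`(9/8)^k ≤ 1/τ ≤ (9/8)^(k+1)`. The key `(i,j,k)` takes at most `(C log K)³` values (`Δ² ≤ A ≤ K`, `σ ≤ K²` since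
`Δσ ≤ 5A²`, `1/τ ≤ K^(C₁)`). The members of `J` with one key are `InC K (K^d) (K^s) (4/3*K^q) (3/2*K^q)` with
`d = log(2^i/8)/log K`, `s = log(2^j)/log K`, `q = log((3/4)(9/8)^k)/log K`, (`Real.rpow_logb`-like identity
`K^(log z/log K) = z`), `3/2 K^q = (9/8)^(k+1)`. If the class is nonempty: `q ≤ C₁` and `d+s ≤ 50/63+10^-6` (`exps1`), so
`4q+2(d+s) ≤ 4C₁+2 =: C₀`. `cell C₀` and `Finset.card_eq_sum_card_image` (or `card_le_mul_card_image`):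
card `≤ (C log K)³ C' K^(5/6-7·10^-5) ≤ C'' K^(5/6-6·10^-5)` (`Real.log_le_rpow_div` or `isLittleO_log_rpow_atTop`).
-/

namespace Pool.Agent.Work.MP_f2148a_nt.M56.S2

private theorem fl (b w : ℝ) (hb : 1 < b) (hw : 1 ≤ w) :
    b ^ ⌊Real.logb b w⌋₊ ≤ w ∧ w ≤ b ^ (⌊Real.logb b w⌋₊ + 1) := by
  have h0 : 0 ≤ Real.logb b w := Real.logb_nonneg hb hw
  have hw0 : 0 < w := by linarith
  have hb0 : 0 < b := by linarith
  have e : b ^ Real.logb b w = w := Real.rpow_logb hb0 hb.ne' hw0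
  constructor
  · rw [← Real.rpow_natCast]
    calc b ^ ((⌊Real.logb b w⌋₊ : ℕ) : ℝ) ≤ b ^ Real.logb b w :=
        Real.rpow_le_rpow_of_exponent_le hb.le (Nat.floor_le h0)
      _ = w := e
  · rw [← Real.rpow_natCast]
    calc w = b ^ Real.logb b w := e.symm
      _ ≤ b ^ ((⌊Real.logb b w⌋₊ + 1 : ℕ) : ℝ) := by
        refine Real.rpow_le_rpow_of_exponent_le hb.le ?_
        push_cast
        exact (Nat.lt_floor_add_one _).le

private theorem fl2 (b w M : ℝ) (hb : 1 < b) (hw : 1 ≤ w) (h : Real.log w ≤ M) :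
    (⌊Real.logb b w⌋₊ : ℝ) ≤ M / Real.log b := by
  have h0 : 0 ≤ Real.logb b w := Real.logb_nonneg hb hw
  refine (Nat.floor_le h0).trans ?_
  rw [Real.logb]
  exact div_le_div_of_nonneg_right h (Real.log_pos hb).le

/-- The key of the data. -/
private noncomputable def key (t : Dt) : ℕ × ℕ × ℕ :=
  (⌊Real.logb 2 (8 * t.Δ)⌋₊, ⌊Real.logb 2 t.σ⌋₊, ⌊Real.logb (9 / 8) (1 / t.τ)⌋₊)

/-- The bounds of the real data. -/
private theorem bds {K : ℝ} (hK : 10 ^ 10 ≤ K) {t : Dt} (g : Gi K t) :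
    1 ≤ 8 * t.Δ ∧ 8 * t.Δ ≤ K ^ 2 ∧ 1 ≤ t.σ ∧ t.σ ≤ K ^ 2 ∧ 1 ≤ 1 / t.τ ∧ t.Δ * t.σ ≤ K := by
  have hK1 : (1 : ℝ) ≤ K := le_trans (by norm_num) hK
  have hK0 : 0 < K := by linarith
  have hA0 : 0 < K ^ (25 / 63 : ℝ) := Real.rpow_pos_of_pos hK0 _
  have hK5 : 100 ≤ K ^ (1 / 5 : ℝ) := by
    have h1 : ((10 : ℝ) ^ 10) ^ (1 / 5 : ℝ) ≤ K ^ (1 / 5 : ℝ) :=
      Real.rpow_le_rpow (by norm_num) hK (by norm_num)
    have h2 : ((10 : ℝ) ^ 10) ^ (1 / 5 : ℝ) = 100 := by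
      rw [← Real.rpow_natCast, ← Real.rpow_mul (by norm_num)]
      norm_num
    linarith
  have hA : 100 ≤ K ^ (25 / 63 : ℝ) := by
    have h1 : K ^ (1 / 5 : ℝ) ≤ K ^ (25 / 63 : ℝ) :=
      Real.rpow_le_rpow_of_exponent_le hK1 (by norm_num)
    linarith
  have hAK : 5 * (K ^ (25 / 63 : ℝ)) ^ 2 ≤ K := by
    have h1 : (K ^ (25 / 63 : ℝ)) ^ 2 = K ^ (50 / 63 : ℝ) := by
      rw [← Real.rpow_natCast, ← Real.rpow_mul hK0.le]
      norm_num
    have h2 : K = K ^ (50 / 63 : ℝ) * K ^ (13 / 63 : ℝ) := by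
      rw [← Real.rpow_add hK0]
      norm_num
    have h3 : K ^ (1 / 5 : ℝ) ≤ K ^ (13 / 63 : ℝ) :=
      Real.rpow_le_rpow_of_exponent_le hK1 (by norm_num)
    have h4 : 0 < K ^ (50 / 63 : ℝ) := Real.rpow_pos_of_pos hK0 _
    rw [h1]
    calc 5 * K ^ (50 / 63 : ℝ) ≤ K ^ (50 / 63 : ℝ) * K ^ (13 / 63 : ℝ) := by nlinarith
      _ = K := h2.symm
  have o := g.own
  have hτ := o.tau_pos
  have hD := o.D_ge
  have hσ0 : 0 ≤ t.σ := by
    rw [o.sig]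
    have := o.a_pos
    have h3 : (0 : ℝ) < t.α := by exact_mod_cast (by omega : 0 < t.α)
    positivity
  have hσ1 : 1 ≤ t.σ := by
    have := o.sig_ge
    nlinarith
  have hDs : t.Δ * t.σ ≤ K := o.Dsig_le.trans hAK
  refine ⟨by linarith, ?_, hσ1, ?_, ?_, hDs⟩
  · have h1 : t.Δ ≤ K := by nlinarith
    nlinarith
  · have h1 : 29 / 100 * t.σ ≤ K := by nlinarith
    nlinarith
  · rw [le_div_iff₀ hτ, one_mul]
    refine o.tau_le.trans ?_
    exact Real.rpow_le_one_of_one_le_of_nonpos hK1 (by norm_num)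

theorem sumM (C₁ : ℝ) (hC : 1 ≤ C₁) : ∃ C K₀ : ℝ, 1 < K₀ ∧ ∀ K : ℝ, K₀ ≤ K →
    ∀ J : Finset Dt, (∀ t ∈ J, Gi K t ∧ 1 / t.τ ≤ K ^ C₁) → Inj2 J →
      (J.card : ℝ) ≤ C * K ^ (5 / 6 - 6 / 100000 : ℝ) := by
  classical
  obtain ⟨Cc, Kc, hKc, hcell⟩ := cell (4 * C₁ + 2) (by linarith)
  have hl2 : 0 < Real.log 2 := Real.log_pos (by norm_num)
  have hl9 : 0 < Real.log (9 / 8) := Real.log_pos (by norm_num)
  set c : ℝ := 2 / Real.log 2 + C₁ / Real.log (9 / 8) with hc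
  have hc1 : 0 ≤ 2 / Real.log 2 := by positivity
  have hc2 : 0 ≤ C₁ / Real.log (9 / 8) := by positivity
  have hc0 : 0 ≤ c := by positivity
  refine ⟨(300000 * c + 2) ^ 3 * |Cc|, Kc + 10 ^ 10, by linarith, ?_⟩
  intro K hK J hJ hinj
  have hKb : (10 : ℝ) ^ 10 ≤ K := by linarith
  have hK1 : (1 : ℝ) < K := lt_of_lt_of_le (by norm_num) hKb
  have hK0 : 0 < K := by linarith
  have hlK : 0 < Real.log K := Real.log_pos hK1
  set L : ℕ := ⌊c * Real.log K⌋₊ with hL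
  set B : ℝ := |Cc| * K ^ (5 / 6 - 7 / 100000 : ℝ) with hB
  have hB0 : 0 ≤ B := by positivity
  have hLc : ∀ (n : ℕ) (M : ℝ), (n : ℝ) ≤ M → M ≤ c * Real.log K → n ∈ Finset.range (L + 1) := by
    intro n M h1 h2
    rw [Finset.mem_range, Nat.lt_succ_iff, hL]
    exact Nat.le_floor (h1.trans h2)
  have hmaps : ∀ t ∈ J, key t ∈ Finset.range (L + 1) ×ˢ Finset.range (L + 1) ×ˢ
      Finset.range (L + 1) := by
    intro t ht
    obtain ⟨b1, b2, b3, b4, b5, b6⟩ := bds hKb (hJ t ht).1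
    have e2 : Real.log (K ^ 2) = 2 * Real.log K := by
      rw [Real.log_pow]; norm_num
    simp only [key, Finset.mem_product]
    refine ⟨?_, ?_, ?_⟩
    · refine hLc _ _ (fl2 2 (8 * t.Δ) (2 * Real.log K) (by norm_num) b1 ?_) ?_
      · rw [← e2]
        exact Real.log_le_log (by linarith) b2
      · rw [hc, mul_div_right_comm]
        exact mul_le_mul_of_nonneg_right (by linarith) hlK.le
    · refine hLc _ _ (fl2 2 t.σ (2 * Real.log K) (by norm_num) b3 ?_) ?_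
      · rw [← e2]
        exact Real.log_le_log (by linarith) b4
      · rw [hc, mul_div_right_comm]
        exact mul_le_mul_of_nonneg_right (by linarith) hlK.le
    · refine hLc _ _ (fl2 (9 / 8) (1 / t.τ) (C₁ * Real.log K) (by norm_num) b5 ?_) ?_
      · rw [← Real.log_rpow hK0]
        exact Real.log_le_log (by linarith) (hJ t ht).2
      · rw [hc, mul_div_right_comm]
        exact mul_le_mul_of_nonneg_right (by linarith) hlK.le
  have hclass : ∀ κ ∈ Finset.range (L + 1) ×ˢ Finset.range (L + 1) ×ˢ Finset.range (L + 1),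
      (((J.filter fun t => key t = κ).card : ℕ) : ℝ) ≤ B := by
    intro κ _
    rcases (J.filter fun t => key t = κ).eq_empty_or_nonempty with h0 | ⟨t₀, ht₀⟩
    · rw [h0]
      simpa using hB0
    have hd0 : (0 : ℝ) < 2 ^ κ.1 / 8 := by positivity
    have hs0 : (0 : ℝ) < 2 ^ κ.2.1 := by positivity
    have hq0 : (0 : ℝ) < 3 / 4 * (9 / 8) ^ κ.2.2 := by positivity
    have ed : K ^ Real.logb K (2 ^ κ.1 / 8) = 2 ^ κ.1 / 8 := Real.rpow_logb hK0 hK1.ne' hd0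
    have es : K ^ Real.logb K (2 ^ κ.2.1) = 2 ^ κ.2.1 := Real.rpow_logb hK0 hK1.ne' hs0
    have eq : K ^ Real.logb K (3 / 4 * (9 / 8) ^ κ.2.2) = 3 / 4 * (9 / 8) ^ κ.2.2 :=
      Real.rpow_logb hK0 hK1.ne' hq0
    have hin : ∀ t ∈ J.filter (fun t => key t = κ), InC K (K ^ Real.logb K (2 ^ κ.1 / 8))
        (K ^ Real.logb K (2 ^ κ.2.1)) (4 / 3 * K ^ Real.logb K (3 / 4 * (9 / 8) ^ κ.2.2))
        (3 / 2 * K ^ Real.logb K (3 / 4 * (9 / 8) ^ κ.2.2)) t := by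
      intro t ht
      rw [Finset.mem_filter] at ht
      obtain ⟨htJ, hk⟩ := ht
      obtain ⟨b1, b2, b3, b4, b5, b6⟩ := bds hKb (hJ t htJ).1
      have k1 : ⌊Real.logb 2 (8 * t.Δ)⌋₊ = κ.1 := by rw [← hk]; rfl
      have k2 : ⌊Real.logb 2 t.σ⌋₊ = κ.2.1 := by rw [← hk]; rfl
      have k3 : ⌊Real.logb (9 / 8) (1 / t.τ)⌋₊ = κ.2.2 := by rw [← hk]; rfl
      obtain ⟨f1, f2⟩ := fl 2 (8 * t.Δ) (by norm_num) b1
      obtain ⟨f3, f4⟩ := fl 2 t.σ (by norm_num) b3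
      obtain ⟨f5, f6⟩ := fl (9 / 8) (1 / t.τ) (by norm_num) b5
      rw [k1] at f1 f2
      rw [k2] at f3 f4
      rw [k3] at f5 f6
      rw [ed, es, eq]
      rw [pow_succ] at f2 f4 f6
      refine ⟨(hJ t htJ).1, by linarith, by linarith, by linarith, by linarith, ?_, ?_⟩
      · calc 4 / 3 * (3 / 4 * (9 / 8 : ℝ) ^ κ.2.2) = (9 / 8) ^ κ.2.2 := by ring
          _ ≤ 1 / t.τ := f5
      · calc 1 / t.τ ≤ (9 / 8) ^ κ.2.2 * (9 / 8) := f6
          _ = 3 / 2 * (3 / 4 * (9 / 8 : ℝ) ^ κ.2.2) := by ring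
    have hI0 := hin t₀ ht₀
    have hJ0 := hJ t₀ (Finset.mem_filter.1 ht₀).1
    obtain ⟨b1, b2, b3, b4, b5, b6⟩ := bds hKb hJ0.1
    have hq : Real.logb K (3 / 4 * (9 / 8) ^ κ.2.2) ≤ C₁ := by
      rw [← Real.rpow_le_rpow_left_iff hK1]
      have h1 := hI0.q1
      have h2 : 0 < K ^ Real.logb K (3 / 4 * (9 / 8) ^ κ.2.2) := Real.rpow_pos_of_pos hK0 _
      linarith [hJ0.2]
    have hds : Real.logb K (2 ^ κ.1 / 8) + Real.logb K (2 ^ κ.2.1) ≤ 1 := by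
      rw [← Real.rpow_le_rpow_left_iff hK1, Real.rpow_add hK0, Real.rpow_one]
      have h1 := hI0.d1
      have h2 := hI0.s1
      have h3 : 0 < K ^ Real.logb K (2 ^ κ.1 / 8) := Real.rpow_pos_of_pos hK0 _
      have h4 : 0 < K ^ Real.logb K (2 ^ κ.2.1) := Real.rpow_pos_of_pos hK0 _
      exact (mul_le_mul h1 h2 h4.le (by linarith)).trans b6
    have h5 := hcell K (by linarith) (Real.logb K (2 ^ κ.1 / 8)) (Real.logb K (2 ^ κ.2.1))
      (Real.logb K (3 / 4 * (9 / 8) ^ κ.2.2)) (J.filter fun t => key t = κ) hin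
      (fun t ht t' ht' => hinj t (Finset.mem_filter.1 ht).1 t' (Finset.mem_filter.1 ht').1)
      (by linarith)
    refine h5.trans (mul_le_mul_of_nonneg_right (le_abs_self _) ?_)
    exact (Real.rpow_pos_of_pos hK0 _).le
  have hsum : (J.card : ℝ) ≤ ((L + 1 : ℕ) : ℝ) ^ 3 * B := by
    rw [Finset.card_eq_sum_card_fiberwise (f := key) (s := J)
      (t := Finset.range (L + 1) ×ˢ Finset.range (L + 1) ×ˢ Finset.range (L + 1)) hmaps]
    push_cast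
    refine (Finset.sum_le_card_nsmul _ _ B ?_).trans (le_of_eq ?_)
    · intro κ hκ
      exact hclass κ hκ
    · rw [nsmul_eq_mul, Finset.card_product, Finset.card_product, Finset.card_range]
      push_cast
      ring
  have hKe : (1 : ℝ) ≤ K ^ (1 / 300000 : ℝ) := Real.one_le_rpow hK1.le (by norm_num)
  have hL1 : ((L + 1 : ℕ) : ℝ) ≤ (300000 * c + 2) * K ^ (1 / 300000 : ℝ) := by
    have h1 : (L : ℝ) ≤ c * Real.log K := Nat.floor_le (by positivity)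
    have h2 : Real.log K ≤ K ^ (1 / 300000 : ℝ) / (1 / 300000) :=
      Real.log_le_rpow_div hK0.le (by norm_num)
    have h3 : c * Real.log K ≤ c * (300000 * K ^ (1 / 300000 : ℝ)) := by
      refine mul_le_mul_of_nonneg_left (h2.trans (le_of_eq ?_)) hc0
      ring
    push_cast
    nlinarith
  calc (J.card : ℝ) ≤ ((L + 1 : ℕ) : ℝ) ^ 3 * B := hsum
    _ ≤ ((300000 * c + 2) * K ^ (1 / 300000 : ℝ)) ^ 3 * B :=
      mul_le_mul_of_nonneg_right (pow_le_pow_left₀ (Nat.cast_nonneg _) hL1 3) hB0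
    _ = (300000 * c + 2) ^ 3 * |Cc| * K ^ (5 / 6 - 6 / 100000 : ℝ) := by
      have e1 : (K ^ (1 / 300000 : ℝ)) ^ 3 = K ^ (1 / 100000 : ℝ) := by
        rw [← Real.rpow_natCast, ← Real.rpow_mul hK0.le]
        norm_num
      have e2 : K ^ (5 / 6 - 6 / 100000 : ℝ) =
          K ^ (1 / 100000 : ℝ) * K ^ (5 / 6 - 7 / 100000 : ℝ) := by
        rw [← Real.rpow_add hK0]
        norm_num
      rw [mul_pow, e1, e2, hB]
      ring

end Pool.Agent.Work.MP_f2148a_nt.M56.S2
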