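import Pool.Agent.Work.MP_f2148a_nt.M56.C.Act

set_option autoImplicit false

/-!
# S2/CloseSymm (S): `Close` is reflexive and symmetric

PROOF. Reflexive: `p = s = 1`, `q = r = 0` (`C.act_one` or the same lemma in the file `C/Act`). Symmetric: the inverse
matrix `(s, -q; -r, p)`: `z' = z.act p q r s`, `z = z'.act s (-q) (-r) p` by `act_act` (file `C/Act`, look at its exact
form) and `p s - q r = 1`, or directly by `Cub.ext` and `linear_combination`.
-/

namespace Pool.Agent.Work.MP_f2148a_nt.M56.S2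

theorem close_refl (ρ : ℝ) (hρ : 0 ≤ ρ) (z : Cub) (τ : ℝ) : Close ρ z τ z τ := by
  refine ⟨1, 0, 0, 1, by norm_num, (C.act_one z).symm, ?_⟩
  simpa using hρ

theorem close_symm {ρ τ τ' : ℝ} {z z' : Cub} (h : Close ρ z τ z' τ') : Close ρ z' τ' z τ := by
  obtain ⟨p, q, r, s, h1, rfl, h2⟩ := h
  refine ⟨s, -q, -r, p, by linear_combination h1, ?_, ?_⟩
  · rw [C.act_act]
    have e1 : p * s + q * -r = 1 := by linear_combination h1
    have e2 : p * -q + q * p = 0 := by ring
    have e3 : r * s + s * -r = 0 := by ring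
    have e4 : r * -q + s * p = 1 := by linear_combination h1
    rw [e1, e2, e3, e4, C.act_one]
  · have e : |((-r : ℤ) : ℝ)| * τ' * τ = |(r : ℝ)| * τ * τ' := by
      rw [Int.cast_neg, abs_neg]
      ring
    rw [e]
    exact h2

end Pool.Agent.Work.MP_f2148a_nt.M56.S2
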