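import Pool.Agent.Work.MP_f2148a_nt.M56.S2.Exps
import Pool.Agent.Work.MP_f2148a_nt.M56.Sep
import Pool.Agent.Work.MP_f2148a_nt.M56.Sep4

set_option autoImplicit false

/-!
# S2/NBoxes (M): the number of boxes of a cell

PROOF (`nboxes`). `J = J_I ∪ J_II` by `Own.type` (`TI`, `TII`). `D = K^d ≥ 1/8` (`exps1`, `K^(-10^-6) ≥ 1/8`; or from
`29/100 ≤ Δ ≤ 2D`), `ρ = (3/4)K^(-a) ≤ 1/100` for large `K` (`a ≥ 1/10`). `1 + log(2+D) ≤ C K^ε` because `d ≤ 25/126`.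
`J_I`: `sep_I` with `c₀ = min (1/100) (K^(-yy))`: count `≤ C K^(4d) K^ε (1 + c₀/ρ)`, and `c₀/ρ ≤ (4/3) K^(a-yy)`,
`1 ≤ K^(a-yy)`. `J_II` (if nonempty then `yy = 0` by `exps1`): `sep_II4`: `≤ C K^(4d) K^ε (4/3) K^a`.
In both cases `≤ C K^(4d+(a-yy)+ε)`.
PROOF (`nboxesL`). The same with `ρ = (3/4)(4K^s)^(-v)`, `v = 9/8+1/1000` (`ρ ≤ 1/100` for large `K` since
`s ≥ (50/63-10^-6-d)/3 ≥ 19/100`). Type I, `c₀ = min (1/100) (K^(-yy))`, `yy ≥ 3(d+s)-1-10^-5`: `c₀/ρ ≤ C K^(1-3(d+s)+vs+10^-5)`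
and the exponent `4d+1-3(d+s)+vs+10^-5+ε = 1+d-(3-v)s+..` with `s ≥ (50/63-10^-6-d)/3`, `3-v = 1.874`:
`≤ 1-.49576+1.62467 d+.. ≤ .8267` for `d ≤ 25/126`; `4d ≤ .7937`. Type II: exponent `4d+vs+ε`, `s ≤ 1/3+10^-6-d`,
`d ≤ 1/2-25/63+10^-6`: `≤ .3754+2.874·.1032 ≤ .673`. Everything `≤ 828/1000` (take `ε = 1/1000`).
-/

namespace Pool.Agent.Work.MP_f2148a_nt.M56.S2

private theorem logb (ε : ℝ) (hε : 0 < ε) (K D : ℝ) (hK : 1 ≤ K) (hD : 0 < D) (hDK : D ≤ K) :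
    0 ≤ 1 + Real.log (2 + D) ∧ 1 + Real.log (2 + D) ≤ (1 + 3 ^ ε / ε) * K ^ ε := by
  have h1 : Real.log (2 + D) ≤ Real.log (3 * K) := Real.log_le_log (by linarith) (by linarith)
  have h2 : Real.log (3 * K) ≤ (3 * K) ^ ε / ε :=
    Real.log_le_rpow_div (by linarith) hε
  have h3 : (3 * K : ℝ) ^ ε = 3 ^ ε * K ^ ε := Real.mul_rpow (by norm_num) (by linarith)
  have h4 : 1 ≤ K ^ ε := Real.one_le_rpow hK hε.le
  have h5 : 0 ≤ Real.log (2 + D) := Real.log_nonneg (by linarith)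
  refine ⟨by linarith, ?_⟩
  rw [h3] at h2
  calc 1 + Real.log (2 + D) ≤ K ^ ε + 3 ^ ε * K ^ ε / ε := by linarith
    _ = (1 + 3 ^ ε / ε) * K ^ ε := by ring

private theorem core (ε : ℝ) (hε : 0 < ε) : ∃ C K₀ : ℝ, 0 ≤ C ∧ 1 < K₀ ∧ ∀ K : ℝ, K₀ ≤ K →
    ∀ (d s Q R ρ : ℝ) (J : Finset Dt), (∀ t ∈ J, InC K (K ^ d) (K ^ s) Q R t) →
      0 < ρ → ρ ≤ 1 / 100 →
      (∀ t ∈ J, ∀ t' ∈ J, t ≠ t' → ¬ Close ρ t.z t.τ t'.z t'.τ) →
      ∃ A B : ℕ, J.card = A + B ∧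
        (A : ℝ) ≤ C * K ^ (4 * d + ε) * (1 + K ^ (-(H.yy s d)) / ρ) ∧
        (B : ℝ) ≤ C * K ^ (4 * d + ε) / ρ ∧
        ((0 < A ∨ 0 < B) → -(1 / 1000000) ≤ d ∧ d ≤ 25 / 126 ∧
          50 / 63 - 1 / 1000000 ≤ 3 * s + d ∧ d + s ≤ 50 / 63 + 1 / 1000000) ∧
        (0 < B → d + s ≤ 1 / 3 + 1 / 1000000 ∧ H.yy s d = 0 ∧
          d ≤ 1 / 2 - 25 / 63 + 1 / 1000000) := by
  classical
  obtain ⟨K₀, hK₀, he⟩ := exps1
  obtain ⟨C₁, h1⟩ := sep_I
  obtain ⟨C₂, h2⟩ := sep_II4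
  refine ⟨(|C₁| + |C₂|) * (1 + 3 ^ ε / ε), K₀, by positivity, hK₀, ?_⟩
  intro K hK d s Q R ρ J hJ hρ hρ1 hsep
  have hK1 : 1 < K := lt_of_lt_of_le hK₀ hK
  have hK0 : 0 < K := by linarith
  refine ⟨(J.filter (TI K)).card, (J.filter (fun t => ¬ TI K t)).card, ?_, ?_, ?_, ?_, ?_⟩
  · exact (Finset.card_filter_add_card_filter_not _).symm
  · rcases (J.filter (TI K)).eq_empty_or_nonempty with h0 | ⟨t₀, ht₀⟩
    · rw [h0]
      simp only [Finset.card_empty, Nat.cast_zero]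
      positivity
    · have hD := he K hK d s Q R t₀ (hJ t₀ (Finset.mem_filter.1 ht₀).1)
      have hd : K ^ d ≤ K := by
        calc K ^ d ≤ K ^ (1 : ℝ) := Real.rpow_le_rpow_of_exponent_le hK1.le (by linarith [hD.2.1])
          _ = K := Real.rpow_one K
      have hDpos : 0 < K ^ d := Real.rpow_pos_of_pos hK0 d
      obtain ⟨l0, l1⟩ := logb ε hε K (K ^ d) hK1.le hDpos hd
      have hD8 : 1 / 8 ≤ K ^ d := by
        have hc := hJ t₀ (Finset.mem_filter.1 ht₀).1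
        have := hc.gi.own.D_ge
        have := hc.d2
        linarith
      have hmain := h1 (K ^ d) (min (1 / 100) (K ^ (-(H.yy s d)))) ρ hD8
        (le_min (by norm_num) (Real.rpow_nonneg hK0.le _)) (min_le_left _ _) hρ hρ1 Dt
        (J.filter (TI K)) Dt.z Dt.ω Dt.τ Dt.Δ Dt.l Dt.c ?_ ?_
      · refine hmain.trans ?_
        have e4 : (K ^ d) ^ 4 = K ^ (4 * d) := by
          rw [← Real.rpow_natCast, ← Real.rpow_mul hK0.le]
          congr 1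
          push_cast
          ring
        have e5 : K ^ (4 * d + ε) = K ^ (4 * d) * K ^ ε := Real.rpow_add hK0 _ _
        have h6 : min (1 / 100) (K ^ (-(H.yy s d))) / ρ ≤ K ^ (-(H.yy s d)) / ρ :=
          div_le_div_of_nonneg_right (min_le_right _ _) hρ.le
        have h6' : 0 ≤ min (1 / 100) (K ^ (-(H.yy s d))) / ρ :=
          div_nonneg (le_min (by norm_num) (Real.rpow_nonneg hK0.le _)) hρ.le
        have h7 : 0 ≤ K ^ (4 * d) := Real.rpow_nonneg hK0.le _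
        rw [e4, e5]
        calc C₁ * K ^ (4 * d) * (1 + Real.log (2 + K ^ d)) *
              (1 + min (1 / 100) (K ^ (-(H.yy s d))) / ρ)
            ≤ (|C₁| + |C₂|) * K ^ (4 * d) * ((1 + 3 ^ ε / ε) * K ^ ε) *
              (1 + K ^ (-(H.yy s d)) / ρ) := by
              have := le_abs_self C₁
              have := abs_nonneg C₂
              gcongr
              linarith
          _ = (|C₁| + |C₂|) * (1 + 3 ^ ε / ε) * (K ^ (4 * d) * K ^ ε) *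
              (1 + K ^ (-(H.yy s d)) / ρ) := by ring
      · intro t ht
        have htJ := (Finset.mem_filter.1 ht).1
        have htI := (Finset.mem_filter.1 ht).2
        have hc := hJ t htJ
        have hE := (he K hK d s Q R t hc).2.2.2.2.1 htI
        exact ⟨hc.gi.own.disc, hc.gi.own.tau_pos, hc.gi.own.dep, hc.d1, hc.d2, htI.1,
          le_min htI.2.1 hE⟩
      · intro t ht t' ht' hne
        exact hsep t (Finset.mem_filter.1 ht).1 t' (Finset.mem_filter.1 ht').1 hne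
  · rcases (J.filter (fun t => ¬ TI K t)).eq_empty_or_nonempty with h0 | ⟨t₀, ht₀⟩
    · rw [h0]
      simp only [Finset.card_empty, Nat.cast_zero]
      positivity
    · have hD := he K hK d s Q R t₀ (hJ t₀ (Finset.mem_filter.1 ht₀).1)
      have hd : K ^ d ≤ K := by
        calc K ^ d ≤ K ^ (1 : ℝ) := Real.rpow_le_rpow_of_exponent_le hK1.le (by linarith [hD.2.1])
          _ = K := Real.rpow_one K
      have hDpos : 0 < K ^ d := Real.rpow_pos_of_pos hK0 d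
      obtain ⟨l0, l1⟩ := logb ε hε K (K ^ d) hK1.le hDpos hd
      have hD8 : 1 / 8 ≤ K ^ d := by
        have hc := hJ t₀ (Finset.mem_filter.1 ht₀).1
        have := hc.gi.own.D_ge
        have := hc.d2
        linarith
      have hmain := h2 (K ^ d) ρ hD8 hρ hρ1 Dt
        (J.filter (fun t => ¬ TI K t)) Dt.z Dt.ω Dt.τ Dt.Δ Dt.l Dt.c ?_ ?_
      · refine hmain.trans ?_
        have e4 : (K ^ d) ^ 4 = K ^ (4 * d) := by
          rw [← Real.rpow_natCast, ← Real.rpow_mul hK0.le]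
          congr 1
          push_cast
          ring
        have e5 : K ^ (4 * d + ε) = K ^ (4 * d) * K ^ ε := Real.rpow_add hK0 _ _
        have h7 : 0 ≤ K ^ (4 * d) := Real.rpow_nonneg hK0.le _
        rw [e4, e5]
        calc C₂ * K ^ (4 * d) * (1 + Real.log (2 + K ^ d)) / ρ
            ≤ (|C₁| + |C₂|) * K ^ (4 * d) * ((1 + 3 ^ ε / ε) * K ^ ε) / ρ := by
              have := le_abs_self C₂
              have := abs_nonneg C₁
              gcongr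
              linarith
          _ = (|C₁| + |C₂|) * (1 + 3 ^ ε / ε) * (K ^ (4 * d) * K ^ ε) / ρ := by ring
      · intro t ht
        have htJ := (Finset.mem_filter.1 ht).1
        have hc := hJ t htJ
        exact ⟨hc.gi.own.disc, hc.gi.own.tau_pos, hc.gi.own.dep, hc.d1, hc.d2,
          hc.gi.own.l_le, hc.gi.own.c_le, hc.gi.own.nrm⟩
      · intro t ht t' ht' hne
        exact hsep t (Finset.mem_filter.1 ht).1 t' (Finset.mem_filter.1 ht').1 hne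
  · intro hAB
    have hne : J.Nonempty := by
      rcases hAB with h | h
      · obtain ⟨t, ht⟩ := Finset.card_pos.1 h
        exact ⟨t, (Finset.mem_filter.1 ht).1⟩
      · obtain ⟨t, ht⟩ := Finset.card_pos.1 h
        exact ⟨t, (Finset.mem_filter.1 ht).1⟩
    obtain ⟨t, ht⟩ := hne
    obtain ⟨a1, a2, a3, a4, -⟩ := he K hK d s Q R t (hJ t ht)
    exact ⟨a1, a2, a3, a4⟩
  · intro hB
    obtain ⟨t, ht⟩ := Finset.card_pos.1 hB
    have htJ := (Finset.mem_filter.1 ht).1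
    have hnI := (Finset.mem_filter.1 ht).2
    have hc := hJ t htJ
    have hII : TII K t := by
      rcases hc.gi.own.type with h | h
      · exact absurd h hnI
      · exact h
    exact (he K hK d s Q R t hc).2.2.2.2.2 hII

theorem nboxes (ε : ℝ) (hε : 0 < ε) : ∃ C K₀ : ℝ, 1 < K₀ ∧ ∀ K : ℝ, K₀ ≤ K →
    ∀ (d s Q R a : ℝ) (J : Finset Dt), (∀ t ∈ J, InC K (K ^ d) (K ^ s) Q R t) →
      (∀ t ∈ J, ∀ t' ∈ J, t ≠ t' → ¬ Close (3 / 4 * K ^ (-a)) t.z t.τ t'.z t'.τ) →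
      1 / 10 ≤ a → H.yy s d ≤ a →
      (J.card : ℝ) ≤ C * K ^ (4 * d + (a - H.yy s d) + ε) := by
  obtain ⟨C, K₀, hC, hK₀, h⟩ := core ε hε
  refine ⟨4 * C, max K₀ (75 ^ 10), lt_max_of_lt_left hK₀, ?_⟩
  intro K hK d s Q R a J hJ hsep ha hya
  have hK1 : K₀ ≤ K := (le_max_left _ _).trans hK
  have hK2 : (75 : ℝ) ^ 10 ≤ K := (le_max_right _ _).trans hK
  have hK3 : 1 < K := lt_of_lt_of_le hK₀ hK1
  have hK0 : 0 < K := by linarith
  have hKa : 0 < K ^ a := Real.rpow_pos_of_pos hK0 a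
  have hρ : 0 < 3 / 4 * K ^ (-a) := by
    have := Real.rpow_pos_of_pos hK0 (-a)
    positivity
  have h75 : (75 : ℝ) ≤ K ^ a := by
    calc (75 : ℝ) = ((75 : ℝ) ^ 10) ^ (1 / 10 : ℝ) := by
          rw [← Real.rpow_natCast, ← Real.rpow_mul (by norm_num)]
          norm_num
      _ ≤ K ^ (1 / 10 : ℝ) := Real.rpow_le_rpow (by positivity) hK2 (by norm_num)
      _ ≤ K ^ a := Real.rpow_le_rpow_of_exponent_le hK3.le ha
  have hρ1 : 3 / 4 * K ^ (-a) ≤ 1 / 100 := by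
    rw [Real.rpow_neg hK0.le]
    have : (K ^ a)⁻¹ ≤ 75⁻¹ := inv_anti₀ (by norm_num) h75
    linarith
  obtain ⟨A, B, hAB, hA, hB, -, hB2⟩ := h K hK1 d s Q R (3 / 4 * K ^ (-a)) J hJ hρ hρ1 hsep
  have e1 : 1 / (3 / 4 * K ^ (-a)) = 4 / 3 * K ^ a := by
    rw [Real.rpow_neg hK0.le]
    field_simp
  have e2 : K ^ (4 * d + (a - H.yy s d) + ε) = K ^ (4 * d + ε) * K ^ (a - H.yy s d) := by
    rw [← Real.rpow_add hK0]
    congr 1
    ring
  have e3 : K ^ (a - H.yy s d) = K ^ (-(H.yy s d)) * K ^ a := by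
    rw [← Real.rpow_add hK0]
    congr 1
    ring
  have h1 : 1 ≤ K ^ (a - H.yy s d) := Real.one_le_rpow hK3.le (by linarith)
  have hpos : 0 ≤ K ^ (4 * d + ε) := Real.rpow_nonneg hK0.le _
  have hA' : (A : ℝ) ≤ 7 / 3 * (C * K ^ (4 * d + ε) * K ^ (a - H.yy s d)) := by
    refine hA.trans ?_
    have e4 : K ^ (-(H.yy s d)) / (3 / 4 * K ^ (-a)) = 4 / 3 * K ^ (a - H.yy s d) := by
      rw [div_eq_mul_one_div, e1, e3]
      ring
    rw [e4]
    calc C * K ^ (4 * d + ε) * (1 + 4 / 3 * K ^ (a - H.yy s d))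
        ≤ C * K ^ (4 * d + ε) * (K ^ (a - H.yy s d) + 4 / 3 * K ^ (a - H.yy s d)) := by
          gcongr
      _ = _ := by ring
  have hB' : (B : ℝ) ≤ 4 / 3 * (C * K ^ (4 * d + ε) * K ^ (a - H.yy s d)) := by
    rcases Nat.eq_zero_or_pos B with h0 | h0
    · rw [h0]
      have : 0 ≤ K ^ (a - H.yy s d) := by linarith
      simp only [Nat.cast_zero]
      positivity
    · refine hB.trans ?_
      rw [(hB2 h0).2.1, sub_zero, div_eq_mul_one_div, e1]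
      apply le_of_eq
      ring
  rw [e2, hAB]
  push_cast
  have hfin : 0 ≤ C * K ^ (4 * d + ε) * K ^ (a - H.yy s d) := by
    have : 0 ≤ K ^ (a - H.yy s d) := by linarith
    positivity
  nlinarith

theorem nboxesL : ∃ C K₀ : ℝ, 1 < K₀ ∧ ∀ K : ℝ, K₀ ≤ K →
    ∀ (d s Q R : ℝ) (J : Finset Dt), (∀ t ∈ J, InC K (K ^ d) (K ^ s) Q R t) →
      (∀ t ∈ J, ∀ t' ∈ J, t ≠ t' →
        ¬ Close (3 / 4 * (4 * K ^ s) ^ (-(9 / 8 + 1 / 1000) : ℝ)) t.z t.τ t'.z t'.τ) →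
      (J.card : ℝ) ≤ C * K ^ (828 / 1000 : ℝ) := by
  obtain ⟨K₁, hK₁, he⟩ := exps1
  obtain ⟨C, K₀, hC, hK₀, h⟩ := core (1 / 1000) (by norm_num)
  refine ⟨50 * C, max (max K₀ K₁) (75 ^ 10), lt_max_of_lt_left (lt_max_of_lt_left hK₀), ?_⟩
  intro K hK d s Q R J hJ hsep
  have hK1 : K₀ ≤ K := (le_max_left _ _).trans ((le_max_left _ _).trans hK)
  have hK1' : K₁ ≤ K := (le_max_right _ _).trans ((le_max_left _ _).trans hK)
  have hK2 : (75 : ℝ) ^ 10 ≤ K := (le_max_right _ _).trans hK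
  have hK3 : 1 < K := lt_of_lt_of_le hK₀ hK1
  have hK0 : 0 < K := by linarith
  have hgoal : 0 ≤ K ^ (828 / 1000 : ℝ) := Real.rpow_nonneg hK0.le _
  rcases J.eq_empty_or_nonempty with hemp | ⟨t₀, ht₀⟩
  · rw [hemp]
    simp only [Finset.card_empty, Nat.cast_zero]
    positivity
  obtain ⟨a1, a2, a3, a4, -⟩ := he K hK1' d s Q R t₀ (hJ t₀ ht₀)
  have hs : 19 / 100 ≤ s := by linarith
  have hKs : 0 < K ^ s := Real.rpow_pos_of_pos hK0 s
  have h75 : (75 : ℝ) ≤ K ^ s := by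
    calc (75 : ℝ) = ((75 : ℝ) ^ 10) ^ (1 / 10 : ℝ) := by
          rw [← Real.rpow_natCast, ← Real.rpow_mul (by norm_num)]
          norm_num
      _ ≤ K ^ (1 / 10 : ℝ) := Real.rpow_le_rpow (by positivity) hK2 (by norm_num)
      _ ≤ K ^ s := Real.rpow_le_rpow_of_exponent_le hK3.le (by linarith)
  have hρ : 0 < 3 / 4 * (4 * K ^ s) ^ (-(9 / 8 + 1 / 1000) : ℝ) := by positivity
  have hρ1 : 3 / 4 * (4 * K ^ s) ^ (-(9 / 8 + 1 / 1000) : ℝ) ≤ 1 / 100 := by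
    have b1 : (4 * K ^ s) ^ (-(9 / 8 + 1 / 1000) : ℝ) ≤ (4 * K ^ s) ^ (-1 : ℝ) :=
      Real.rpow_le_rpow_of_exponent_le (by linarith) (by norm_num)
    have b2 : (4 * K ^ s) ^ (-1 : ℝ) ≤ 300⁻¹ := by
      rw [Real.rpow_neg_one]
      exact inv_anti₀ (by norm_num) (by linarith)
    have b3 : (300 : ℝ)⁻¹ ≤ 1 / 100 := by norm_num
    linarith
  obtain ⟨A, B, hAB, hA, hB, -, hB2⟩ := h K hK1 d s Q R _ J hJ hρ hρ1 hsep
  have e1 : 1 / (3 / 4 * (4 * K ^ s) ^ (-(9 / 8 + 1 / 1000) : ℝ)) ≤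
      64 / 3 * K ^ ((9 / 8 + 1 / 1000) * s) := by
    rw [Real.rpow_neg (by positivity), Real.mul_rpow (by norm_num) hKs.le, ← Real.rpow_mul hK0.le]
    have b1 : (4 : ℝ) ^ (9 / 8 + 1 / 1000 : ℝ) ≤ 4 ^ (2 : ℝ) :=
      Real.rpow_le_rpow_of_exponent_le (by norm_num) (by norm_num)
    have b2 : (4 : ℝ) ^ (2 : ℝ) = 16 := by
      rw [Real.rpow_ofNat]
      norm_num
    rw [b2] at b1
    have b3 : 0 < (4 : ℝ) ^ (9 / 8 + 1 / 1000 : ℝ) := by positivity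
    have b4 : 0 < K ^ (s * (9 / 8 + 1 / 1000)) := Real.rpow_pos_of_pos hK0 _
    have b5 : 1 / (3 / 4 * ((4 : ℝ) ^ (9 / 8 + 1 / 1000 : ℝ) * K ^ (s * (9 / 8 + 1 / 1000)))⁻¹) =
        4 / 3 * (4 : ℝ) ^ (9 / 8 + 1 / 1000 : ℝ) * K ^ (s * (9 / 8 + 1 / 1000)) := by
      field_simp
    rw [b5, mul_comm s]
    nlinarith [Real.rpow_pos_of_pos hK0 ((9 / 8 + 1 / 1000) * s)]
  have hpos : 0 ≤ K ^ (4 * d + 1 / 1000) := Real.rpow_nonneg hK0.le _
  have hyy : 3 * (d + s) - 1 - 1 / 100000 ≤ H.yy s d := le_max_right _ _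
  have c1 : K ^ (4 * d + 1 / 1000) ≤ K ^ (828 / 1000 : ℝ) :=
    Real.rpow_le_rpow_of_exponent_le hK3.le (by linarith)
  have c2 : K ^ (4 * d + 1 / 1000) * (K ^ (-(H.yy s d)) * K ^ ((9 / 8 + 1 / 1000) * s)) ≤
      K ^ (828 / 1000 : ℝ) := by
    rw [← Real.rpow_add hK0, ← Real.rpow_add hK0]
    apply Real.rpow_le_rpow_of_exponent_le hK3.le
    linarith
  have hA' : (A : ℝ) ≤ 25 * (C * K ^ (828 / 1000 : ℝ)) := by
    refine hA.trans ?_
    have b1 : K ^ (-(H.yy s d)) / (3 / 4 * (4 * K ^ s) ^ (-(9 / 8 + 1 / 1000) : ℝ)) ≤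
        64 / 3 * (K ^ (-(H.yy s d)) * K ^ ((9 / 8 + 1 / 1000) * s)) := by
      rw [div_eq_mul_one_div]
      have := mul_le_mul_of_nonneg_left e1 (Real.rpow_nonneg hK0.le (-(H.yy s d)))
      linarith
    have b2 : C * K ^ (4 * d + 1 / 1000) *
        (1 + K ^ (-(H.yy s d)) / (3 / 4 * (4 * K ^ s) ^ (-(9 / 8 + 1 / 1000) : ℝ))) ≤
        C * K ^ (4 * d + 1 / 1000) *
        (1 + 64 / 3 * (K ^ (-(H.yy s d)) * K ^ ((9 / 8 + 1 / 1000) * s))) := by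
      gcongr
    refine b2.trans ?_
    have b3 := mul_le_mul_of_nonneg_left c1 hC
    have b4 := mul_le_mul_of_nonneg_left c2 hC
    have b5 : 0 ≤ C * K ^ (828 / 1000 : ℝ) := by positivity
    nlinarith
  have hB' : (B : ℝ) ≤ 25 * (C * K ^ (828 / 1000 : ℝ)) := by
    have b5 : 0 ≤ C * K ^ (828 / 1000 : ℝ) := by positivity
    rcases Nat.eq_zero_or_pos B with h0 | h0
    · rw [h0]
      simp only [Nat.cast_zero]
      linarith
    · obtain ⟨d1, d2, d3⟩ := hB2 h0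
      refine hB.trans ?_
      have c3 : K ^ (4 * d + 1 / 1000) * K ^ ((9 / 8 + 1 / 1000) * s) ≤
          K ^ (828 / 1000 : ℝ) := by
        rw [← Real.rpow_add hK0]
        apply Real.rpow_le_rpow_of_exponent_le hK3.le
        linarith
      rw [div_eq_mul_one_div]
      have b1 := mul_le_mul_of_nonneg_left e1 (mul_nonneg hC hpos)
      have b4 := mul_le_mul_of_nonneg_left c3 hC
      nlinarith
  rw [hAB]
  push_cast
  linarith

end Pool.Agent.Work.MP_f2148a_nt.M56.S2
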