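import Mathlib

set_option autoImplicit false

/-!
# S2/SepPt (S): separated real numbers in an interval

PROOF. The map `i ↦ ⌊(u i - a) / g⌋₊` is injective on `P` (equal floors of nonnegative numbers imply
`|u i - u j| < g`) and has values `≤ ⌊(b - a) / g⌋₊`, so `P.card ≤ ⌊(b-a)/g⌋₊ + 1`. (`a ≤ b` if `P` is nonempty; for
`P = ∅` the right side is `≥ 0` only if `a ≤ b`: hypothesis `hab`.)
-/

namespace Pool.Agent.Work.MP_f2148a_nt.M56.S2

theorem sep_card {ι : Type*} (P : Finset ι) (u : ι → ℝ) (a b g : ℝ) (hab : a ≤ b) (hg : 0 < g)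
    (h1 : ∀ i ∈ P, a ≤ u i ∧ u i ≤ b) (h2 : ∀ i ∈ P, ∀ j ∈ P, i ≠ j → g ≤ |u i - u j|) :
    (P.card : ℝ) ≤ 1 + (b - a) / g := by
  have hq : 0 ≤ (b - a) / g := div_nonneg (by linarith) hg.le
  have hcard : P.card ≤ ⌊(b - a) / g⌋₊ + 1 := by
    have h3 := Finset.card_le_card_of_injOn (s := P) (t := Finset.range (⌊(b - a) / g⌋₊ + 1))
      (fun i => ⌊(u i - a) / g⌋₊) ?_ ?_
    · rwa [Finset.card_range] at h3
    · intro i hi
      have h4 := h1 i hi
      refine Finset.mem_coe.2 (Finset.mem_range.2 (Nat.lt_succ_of_le ?_))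
      exact Nat.floor_le_floor (div_le_div_of_nonneg_right (by linarith [h4.2]) hg.le)
    · intro i hi j hj hij
      by_contra hne
      have h5 := h2 i hi j hj hne
      have hij' : ⌊(u i - a) / g⌋₊ = ⌊(u j - a) / g⌋₊ := hij
      have i0 : 0 ≤ (u i - a) / g := div_nonneg (by linarith [(h1 i hi).1]) hg.le
      have j0 : 0 ≤ (u j - a) / g := div_nonneg (by linarith [(h1 j hj).1]) hg.le
      have a1 := Nat.floor_le i0
      have a2 := Nat.lt_floor_add_one ((u i - a) / g)
      have b1 := Nat.floor_le j0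
      have b2 := Nat.lt_floor_add_one ((u j - a) / g)
      rw [hij'] at a1 a2
      have c1 : |(u i - a) / g - (u j - a) / g| < 1 := by
        rw [abs_lt]
        constructor <;> linarith
      have c2 : (u i - a) / g - (u j - a) / g = (u i - u j) / g := by ring
      rw [c2, abs_div, abs_of_pos hg, div_lt_one hg] at c1
      linarith
  have h6 : (P.card : ℝ) ≤ (⌊(b - a) / g⌋₊ : ℝ) + 1 := by exact_mod_cast hcard
  have h7 := Nat.floor_le hq
  linarith

end Pool.Agent.Work.MP_f2148a_nt.M56.S2
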