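import Pool.Agent.Work.MP_f2148a_nt.M56.S2.Defs
import Pool.Agent.Work.MP_f2148a_nt.M56.S2.SepPt
import Pool.Agent.Work.MP_f2148a_nt.M56.G3.Dat

set_option autoImplicit false

/-!
# S2/Triv (M): trivial bound for the number of points of a box

PROOF. Notation `d₁ = s τ/(3α)`, `d₂ = dd α ω τ s t`, `ξ = xi ω τ X Y`, `υ = τ Y`, `u = d₁/d₂`, `r = υ/ξ`.
(1) Frame identity (`G3.F_frame` and `G3.F_small` in `M56/G3/Dat.lean` do exactly this; import that file if you like;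
`H.Rf` and `Dep` give `Δ = α τ³`, `l τ⁴ = x - ω²`, `c τ⁶ = 2ω³-6xω-4y` for `Z0`): `3sF0+tG1 = 3` implies
`u p₁(r) + p₂(r) = 1/(3 Δ d₂ ξ⁴) =: γ`, `p₁(r) = 1-6lr²-2cr³-3l²r⁴`, `p₂(r) = 2r-cr⁴`.
(2) `|r| ≤ ρ ≤ 1/20`, `|l|, |c| ≤ 1`: `p₁ ≥ 9/10`, `|p₂| ≤ 3ρ`, `0 < γ ≤ 1/(3·(1/4)·(S/2)·Q₁⁴) ≤ 3/S²` (`Q₁⁴ ≥ S`).
So `|u| ≤ (10/9)(3/S²+3ρ) ≤ 4(1/S²+ρ)`.
(3) For different points `d₁d₂'-d₁'d₂ = (st'-s't)/9`, a nonzero integer over 9 (`Pf.np`), so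
`|u-u'| = |d₁d₂'-d₁'d₂|/(d₂d₂') ≥ 1/(9·16 S²)`.
(4) `sep_card` on `[-4(1/S²+ρ), 4(1/S²+ρ)]` with `g = 1/(144S²)`: card `≤ 1+8(1/S²+ρ)·144S² = 1+1152(1+S²ρ)`. `C = 1153`.
-/

namespace Pool.Agent.Work.MP_f2148a_nt.M56.S2

private theorem pa_ge' {l c r ρ : ℝ} (hl : |l| ≤ 1) (hc : |c| ≤ 1) (hr : |r| ≤ ρ)
    (hρ : ρ ≤ 1 / 20) : 9 / 10 ≤ G4.pa l c r ∧ |G4.pb l c r| ≤ 3 * ρ := by
  have hρ0 : 0 ≤ ρ := (abs_nonneg r).trans hr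
  have h1 : |r| ≤ 1 / 20 := hr.trans hρ
  have hr2 : r ^ 2 ≤ 1 / 400 := by
    have := abs_le.1 h1
    nlinarith
  have hr20 : 0 ≤ r ^ 2 := sq_nonneg r
  have hr3 : |r ^ 3| ≤ 1 / 8000 := by
    rw [abs_pow]
    calc |r| ^ 3 ≤ (1 / 20) ^ 3 := pow_le_pow_left₀ (abs_nonneg _) h1 3
      _ = 1 / 8000 := by norm_num
  have hr4 : |r ^ 4| ≤ 1 / 8000 * ρ := by
    rw [abs_pow]
    calc |r| ^ 4 = |r| ^ 3 * |r| := by ring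
      _ ≤ (1 / 20) ^ 3 * ρ := by
        apply mul_le_mul (pow_le_pow_left₀ (abs_nonneg _) h1 3) hr (abs_nonneg _) (by norm_num)
      _ = 1 / 8000 * ρ := by norm_num
  have hl2 : l ^ 2 ≤ 1 := by
    have := abs_le.1 hl
    nlinarith
  have a1 : |6 * l * r ^ 2| ≤ 6 / 400 := by
    rw [abs_mul, abs_mul, abs_of_nonneg hr20]
    have e6 : |(6 : ℝ)| = 6 := by norm_num
    rw [e6]
    nlinarith [abs_nonneg l]
  have a2 : |2 * c * r ^ 3| ≤ 2 / 8000 := by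
    rw [abs_mul, abs_mul]
    have e6 : |(2 : ℝ)| = 2 := by norm_num
    rw [e6]
    nlinarith [abs_nonneg c, abs_nonneg (r ^ 3)]
  have a3 : |3 * l ^ 2 * r ^ 4| ≤ 3 / 8000 * ρ := by
    rw [abs_mul, abs_mul]
    have e6 : |(3 : ℝ)| = 3 := by norm_num
    rw [e6, abs_of_nonneg (sq_nonneg l)]
    nlinarith [sq_nonneg l, abs_nonneg (r ^ 4)]
  have a4 : |c * r ^ 4| ≤ ρ := by
    rw [abs_mul]
    nlinarith [abs_nonneg c, abs_nonneg (r ^ 4)]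
  constructor
  · unfold G4.pa
    have b1 := abs_le.1 a1
    have b2 := abs_le.1 a2
    have b3 := abs_le.1 a3
    linarith
  · unfold G4.pb
    have b1 := abs_le.1 hr
    have b2 := abs_le.1 a4
    rw [abs_le]
    constructor <;> linarith

/-- the coordinate `u` -/
private noncomputable def uu (α : ℤ) (ω τ : ℝ) (s t : ℤ) : ℝ :=
  (s : ℝ) * τ / (3 * α) / dd α ω τ s t

private theorem uu_bound {K : ℝ} {x y α β : ℤ} {ω τ Δ l c ρ S Q₁ Q₂ : ℝ}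
    {P : Finset (ℤ × ℤ × ℤ × ℤ)}
    (hR : H.Rf x y α β ω τ Δ l c) (hρ1 : ρ ≤ 1 / 20) (hS : 1 ≤ S) (hQ : 1 ≤ Q₁)
    (hSQ : S ≤ Q₁ ^ 4) (h : Pf K x y α β ω τ ρ S Q₁ Q₂ P) {p : ℤ × ℤ × ℤ × ℤ} (hp : p ∈ P) :
    |uu α ω τ p.1 p.2.1| ≤ 4 * (1 / S ^ 2 + ρ) := by
  have hS0 : 0 < S := by linarith
  obtain ⟨g1, g2, g3, g4, g5, g6, g7, g8⟩ := hR
  have hα0 : (0 : ℝ) < α := by exact_mod_cast g1
  obtain ⟨hΔ, hω, hl', hc'⟩ := G3.of_dep g1 g3 g5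
  have hΔ0 : 0 < Δ := by linarith
  have h1 := h.val p hp
  have h3 := h.rr p hp
  have h4 := h.xi1 p hp
  have h6 := h.dd1 p hp
  have hd0 : 0 < dd α ω τ p.1 p.2.1 := by linarith
  have hx0 : xi ω τ p.2.2.1 p.2.2.2 ≠ 0 := by
    intro h0
    rw [h0, abs_zero] at h4
    linarith
  have hr : |τ * (p.2.2.2 : ℝ) / xi ω τ p.2.2.1 p.2.2.2| ≤ ρ := by
    rw [abs_div, div_le_iff₀ (abs_pos.2 hx0)]
    exact h3
  have hρ0 : 0 ≤ ρ := (abs_nonneg _).trans hr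
  rw [G3.Fq_eq] at h1
  have h8 : G3.Fq (x : ℝ) y α β p.1 p.2.1 p.2.2.1 p.2.2.2 = 3 := by
    have h9 : ((G3.Fq x y α β p.1 p.2.1 p.2.2.1 p.2.2.2 : ℤ) : ℝ) = 3 := by
      rw [h1]
      norm_num
    rw [← h9]
    unfold G3.Fq
    push_cast
    ring
  rw [G3.F_frame hα0.ne' g3.ne' hω hΔ hl' hc' p.1 p.2.1 p.2.2.1 p.2.2.2
    (d₁ := p.1 * τ / (3 * α)) (d₂ := dd α ω τ p.1 p.2.1) (ξ := xi ω τ p.2.2.1 p.2.2.2)
    (υ := τ * p.2.2.2) rfl rfl rfl rfl] at h8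
  have h9 := G3.F_small hΔ0.ne' hd0.ne' hx0 h8
  obtain ⟨ha, hb⟩ := pa_ge' g6 g7 hr hρ1
  have hX4 : S ≤ xi ω τ p.2.2.1 p.2.2.2 ^ 4 := by
    have e1 : xi ω τ p.2.2.1 p.2.2.2 ^ 4 = |xi ω τ p.2.2.1 p.2.2.2| ^ 4 := by
      rw [← abs_pow, abs_of_nonneg]
      positivity
    rw [e1]
    exact hSQ.trans (pow_le_pow_left₀ (by linarith) h4 4)
  have hden : 3 * S ^ 2 / 8 ≤ 3 * Δ * dd α ω τ p.1 p.2.1 * xi ω τ p.2.2.1 p.2.2.2 ^ 4 := by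
    calc 3 * S ^ 2 / 8 = 3 * (1 / 4) * (S / 2) * S := by ring
      _ ≤ _ := by gcongr
  have hγ0 : 0 ≤ 1 / (3 * Δ * dd α ω τ p.1 p.2.1 * xi ω τ p.2.2.1 p.2.2.2 ^ 4) := by
    positivity
  have hγ : 1 / (3 * Δ * dd α ω τ p.1 p.2.1 * xi ω τ p.2.2.1 p.2.2.2 ^ 4) ≤ 3 / S ^ 2 := by
    have h10 : 1 / (3 * Δ * dd α ω τ p.1 p.2.1 * xi ω τ p.2.2.1 p.2.2.2 ^ 4) ≤
        1 / (3 * S ^ 2 / 8) := one_div_le_one_div_of_le (by positivity) hden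
    refine h10.trans ?_
    rw [div_le_div_iff₀ (by positivity) (by positivity)]
    nlinarith [sq_nonneg S]
  rw [← h9] at hγ hγ0
  have hu : p.1 * τ / (3 * α) / dd α ω τ p.1 p.2.1 = uu α ω τ p.1 p.2.1 := rfl
  rw [hu] at hγ hγ0
  have h11 : |uu α ω τ p.1 p.2.1 * G4.pa l c (τ * p.2.2.2 / xi ω τ p.2.2.1 p.2.2.2)| ≤
      3 / S ^ 2 + 3 * ρ := by
    have b1 := abs_le.1 hb
    have b3 : 0 ≤ 3 / S ^ 2 := by positivity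
    rw [abs_le]
    constructor <;> linarith
  rw [abs_mul, abs_of_pos (by linarith : (0 : ℝ) < G4.pa l c _)] at h11
  have h12 : |uu α ω τ p.1 p.2.1| * (9 / 10) ≤ 3 / S ^ 2 + 3 * ρ :=
    (mul_le_mul_of_nonneg_left ha (abs_nonneg _)).trans h11
  have h13 : 3 / S ^ 2 = 3 * (1 / S ^ 2) := by ring
  have h14 : 0 ≤ 1 / S ^ 2 := by positivity
  rw [h13] at h12
  linarith

theorem triv (K : ℝ) (x y α β : ℤ) (ω τ Δ l c ρ S Q₁ Q₂ : ℝ) (P : Finset (ℤ × ℤ × ℤ × ℤ))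
    (hR : H.Rf x y α β ω τ Δ l c) (hρ : 0 ≤ ρ) (hρ1 : ρ ≤ 1 / 20) (hS : 1 ≤ S) (hQ : 1 ≤ Q₁)
    (hSQ : S ≤ Q₁ ^ 4) (h : Pf K x y α β ω τ ρ S Q₁ Q₂ P) :
    (P.card : ℝ) ≤ 1153 * (1 + S ^ 2 * ρ) := by
  have hS0 : 0 < S := by linarith
  have hα0 : (0 : ℝ) < α := by exact_mod_cast hR.hα
  have hτ := hR.hτ
  have hmain := sep_card P (fun p => uu α ω τ p.1 p.2.1) (-(4 * (1 / S ^ 2 + ρ)))
    (4 * (1 / S ^ 2 + ρ)) (1 / (144 * S ^ 2)) ?_ (by positivity) ?_ ?_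
  · refine hmain.trans ?_
    have e1 : (4 * (1 / S ^ 2 + ρ) - -(4 * (1 / S ^ 2 + ρ))) / (1 / (144 * S ^ 2)) =
        1152 * (1 + S ^ 2 * ρ) := by
      field_simp
      ring
    rw [e1]
    nlinarith [mul_nonneg (sq_nonneg S) hρ]
  · have : 0 ≤ 1 / S ^ 2 + ρ := by positivity
    linarith
  · intro p hp
    exact abs_le.1 (uu_bound hR hρ1 hS hQ hSQ h hp)
  · intro p hp p' hp' hne
    have h1 := h.dd1 p hp
    have h2 := h.dd2 p hp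
    have h3 := h.dd1 p' hp'
    have h4 := h.dd2 p' hp'
    have h5 := h.np p hp p' hp' hne
    have hd : 0 < dd α ω τ p.1 p.2.1 := by linarith
    have hd' : 0 < dd α ω τ p'.1 p'.2.1 := by linarith
    have e1 : uu α ω τ p.1 p.2.1 - uu α ω τ p'.1 p'.2.1 =
        (((p.1 * p'.2.1 - p'.1 * p.2.1 : ℤ) : ℝ) / 9) /
          (dd α ω τ p.1 p.2.1 * dd α ω τ p'.1 p'.2.1) := by
      unfold uu
      rw [div_sub_div _ _ hd.ne' hd'.ne']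
      congr 1
      unfold dd
      push_cast
      field_simp
      ring
    have h6 : (1 : ℝ) ≤ |((p.1 * p'.2.1 - p'.1 * p.2.1 : ℤ) : ℝ)| := by
      have h7 : p.1 * p'.2.1 - p'.1 * p.2.1 ≠ 0 := sub_ne_zero.2 h5
      have h8 := Int.one_le_abs h7
      exact_mod_cast h8
    rw [e1, abs_div, abs_div, abs_of_pos (mul_pos hd hd')]
    have e9 : |(9 : ℝ)| = 9 := by norm_num
    rw [e9, div_div, div_le_div_iff₀ (by positivity) (by positivity)]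
    have h9 : dd α ω τ p.1 p.2.1 * dd α ω τ p'.1 p'.2.1 ≤ (4 * S) * (4 * S) :=
      mul_le_mul h2 h4 hd'.le (by linarith)
    nlinarith [sq_nonneg S]

end Pool.Agent.Work.MP_f2148a_nt.M56.S2
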