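import Pool.Agent.Work.MP_f2148a_nt.M56.S2.Exps
import Pool.Agent.Work.MP_f2148a_nt.M56.S2.Triv
import Pool.Agent.Work.MP_f2148a_nt.M56.H.BB
import Pool.Agent.Work.MP_f2148a_nt.M56.G3.Dat

set_option autoImplicit false

/-!
# S2/PerBox (M): the number of points of one box, bounded range

PROOF. `S = K^s`, reference data `t`: `H.Rf` from `Own` (`τ ≤ K^(-1/5) ≤ 1`, `29/100 ≤ Δ`). `om = omg d (a - yy s d)`
(between `1/200` and `2`), `tt := a - yy s d`, `0 ≤ tt ≤ 2`. From `exps1`, `exps2`: `0 ≤ s ≤ 4/5`, `-1/1000000 ≤ d ≤ 25/126`,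
`1/5 ≤ q` and `q ≤ C₀/4+1`, `4q ≥ 1`, so `S ≤ (K^q)^4`.
Case 1 of `Good.cond`, `2s-a ≤ om`: `triv` with `ρ = K^(-a)` (`≤ 1/20` for large `K`, `a ≥ 1/10`), `Q₁ = K^q`:
card `≤ 1153(1+K^(2s-a)) ≤ 2306 K^om` (`om ≥ 0`).
Case 2, `Cond ε ..`: put `ε₁ = min ε (1/100000)`; `Cond` is monotone in `ε` (`h0`; `h1` since `s q ≥ 0`; `Ineq` has `+ ε` on the
left). Apply `H.bb ε₁ C₁` with `C₁ = 20 C₀+1000` (say), `t := tt`, `om`, `J₀ = 46656 K`, `H₀ = 1296 K^(53/20)`:
`Rf`; `K^d ≤ Δ ≤ 2K^d`; `|c| ≤ K^(tt-a) = K^(-yy)` (type I: `exps1`; type II: `yy = 0`, `|c| ≤ 1`); `1/10 ≤ a-tt = yy` excludes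
type II, so `|l| = 1`; `1/C₁ ≤ s, q, a, om`; `σ = 2|ω|/(3ατ) ≤ 2K^s`; `1/τ ≤ (3/2)K^q`; `α = Δ/τ³ ≤ 2K^d (27/8) K^(3q)`
(first component of `Dep` for `Z0`); `x ≤ 324 K^(4q+2(d+s))`; `y² ≤ x³+K`; `|β| = 3α|ω|`, `|ω| = (3/2) α τ σ`; all `≤ K^(C₁)` for
large `K`; `K^(ε₁) (46656K)² ≤ 1296 K^(53/20)` for large `K`; the points: `Pf` gives `Bx` (`S/2 ≤ d₂ ≤ 4S`; `xi`, `dd` are
definitionally the expressions of `Bx`). Conclusion card `≤ C K^(om+ε₁)`.
-/

namespace Pool.Agent.Work.MP_f2148a_nt.M56.S2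

private theorem ineq_mono {ε ε₁ s q a b om w h : ℝ} {m n : ℕ} (he : ε₁ ≤ ε)
    (h1 : H.Ineq ε s q a b om w h m n) : H.Ineq ε₁ s q a b om w h m n := by
  obtain ⟨al, be, h2, h3, h4, h5⟩ := h1
  exact ⟨al, be, h2, h3, h4, by linarith⟩

private theorem cond_mono {ε ε₁ s d q a t om : ℝ} (he : ε₁ ≤ ε) (hsq : 0 ≤ s * q)
    (h1 : H.Cond ε s d q a t om) : H.Cond ε₁ s d q a t om := by
  obtain ⟨g0, g1, g3, g2⟩ := h1
  refine ⟨by linarith, ?_, by linarith, ?_⟩
  · refine le_trans (mul_le_mul_of_nonneg_right (by linarith) hsq) g1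
  · intro m n hm hn h hh
    rcases g2 m n hm hn h hh with g | ⟨ga, gb, gc, gd⟩
    · exact Or.inl (ineq_mono he g)
    · exact Or.inr ⟨ga, gb, gc, ineq_mono he gd⟩

private theorem rpow_mul_le {K c e e' : ℝ} (hK : 1 < K) (hc : c ≤ K) (h : e + 1 ≤ e') :
    c * K ^ e ≤ K ^ e' := by
  have hK0 : 0 < K := by linarith
  calc c * K ^ e ≤ K * K ^ e := mul_le_mul_of_nonneg_right hc (Real.rpow_nonneg hK0.le e)
    _ = K ^ (e + 1) := by
        rw [Real.rpow_add hK0, Real.rpow_one]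
        ring
    _ ≤ K ^ e' := Real.rpow_le_rpow_of_exponent_le hK.le h

theorem perbox (ε C₀ : ℝ) (hε : 0 < ε) (hC : 1 ≤ C₀) : ∃ C K₀ : ℝ, 1 < K₀ ∧ ∀ K : ℝ, K₀ ≤ K →
    ∀ (d s q a : ℝ) (t : Dt) (P : Finset (ℤ × ℤ × ℤ × ℤ)),
      InC K (K ^ d) (K ^ s) (4 / 3 * K ^ q) (3 / 2 * K ^ q) t → 4 * q + 2 * (d + s) ≤ C₀ →
      H.Good ε s d q a →
      Pf K t.x t.y t.α t.β t.ω t.τ (K ^ (-a)) (K ^ s) (K ^ q) (2 * K ^ q) P →
      (P.card : ℝ) ≤ C * K ^ (H.omg d (a - H.yy s d) + 1 / 100000) := by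
  obtain ⟨ε₁, hε₁, hε₁a, hε₁b⟩ : ∃ ε₁ : ℝ, 0 < ε₁ ∧ ε₁ ≤ ε ∧ ε₁ ≤ 1 / 100000 :=
    ⟨min ε (1 / 100000), lt_min hε (by norm_num), min_le_left _ _, min_le_right _ _⟩
  obtain ⟨K₁, hK₁, he1⟩ := exps1
  obtain ⟨K₂, hK₂, he2⟩ := exps2
  obtain ⟨C, K₃, hK₃, hbb⟩ := H.bb ε₁ (20 * C₀ + 1000) hε₁ (by linarith)
  refine ⟨max C 0 + 2306, max (max K₁ K₂) (max K₃ (10 ^ 14)),
    lt_max_of_lt_left (lt_max_of_lt_left hK₁), ?_⟩
  intro K hK d s q a t P hcell hC₀ hgood hP
  have hKa : K₁ ≤ K := (le_max_left _ _).trans ((le_max_left _ _).trans hK)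
  have hKb : K₂ ≤ K := (le_max_right _ _).trans ((le_max_left _ _).trans hK)
  have hKc : K₃ ≤ K := (le_max_left _ _).trans ((le_max_right _ _).trans hK)
  have hKd : (10 : ℝ) ^ 14 ≤ K := (le_max_right _ _).trans ((le_max_right _ _).trans hK)
  have hK1 : 1 < K := lt_of_lt_of_le (by norm_num) hKd
  have hK0 : 0 < K := by linarith
  have hKbig : (10 : ℝ) ^ 14 = 100000000000000 := by norm_num
  rw [hKbig] at hKd
  obtain ⟨a1, a2, a3, a4, a5, a6⟩ := he1 K hKa d s _ _ t hcell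
  obtain ⟨b1, b2⟩ := he2 K hKb d s q t hcell
  obtain ⟨g1, g2, g3, g4, g5⟩ := hgood
  have own := hcell.gi.own
  have hα1 : (1 : ℝ) ≤ t.α := by exact_mod_cast own.a_pos
  have hα0 : (0 : ℝ) < t.α := by linarith
  have hτ0 := own.tau_pos
  have hτ1 : t.τ ≤ 1 := own.tau_le.trans (Real.rpow_le_one_of_one_le_of_nonpos hK1.le (by norm_num))
  have hRf : H.Rf t.x t.y t.α t.β t.ω t.τ t.Δ t.l t.c :=
    ⟨own.a_pos, own.om, hτ0, hτ1, own.dep, own.l_le, own.c_le, by linarith [own.D_ge]⟩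
  have hyy0 : 0 ≤ H.yy s d := le_max_left _ _
  have hs0 : 19 / 100 ≤ s := by linarith
  have hs1 : s ≤ 1 := by linarith
  have hq0 : 1 / 4 ≤ q := by linarith
  have hq1 : q ≤ C₀ := by linarith
  have hom : 0 ≤ H.omg d (a - H.yy s d) := by linarith
  have hom1 : H.omg d (a - H.yy s d) ≤ 1 := by
    unfold H.omg
    linarith
  have hfin : K ^ (H.omg d (a - H.yy s d)) ≤ K ^ (H.omg d (a - H.yy s d) + 1 / 100000) :=
    Real.rpow_le_rpow_of_exponent_le hK1.le (by linarith)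
  have hfin0 : 0 ≤ K ^ (H.omg d (a - H.yy s d) + 1 / 100000) := Real.rpow_nonneg hK0.le _
  rcases g5 with g5 | g5
  · -- the trivial bound
    have h20 : (20 : ℝ) ≤ K ^ a := by
      calc (20 : ℝ) ≤ (100000000000000 : ℝ) ^ (1 / 10 : ℝ) := by
            rw [← hKbig, ← Real.rpow_natCast, ← Real.rpow_mul (by norm_num)]
            have e1 : ((10 : ℝ) ^ (((14 : ℕ) : ℝ) * (1 / 10))) = 10 ^ (7 / 5 : ℝ) := by
              congr 1
              norm_num
            rw [e1]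
            have e2 : (20 : ℝ) = ((20 : ℝ) ^ 5) ^ (1 / 5 : ℝ) := by
              rw [← Real.rpow_natCast, ← Real.rpow_mul (by norm_num)]
              norm_num
            have e3 : (10 : ℝ) ^ (7 / 5 : ℝ) = ((10 : ℝ) ^ 7) ^ (1 / 5 : ℝ) := by
              rw [← Real.rpow_natCast, ← Real.rpow_mul (by norm_num)]
              norm_num
            rw [e2, e3]
            exact Real.rpow_le_rpow (by norm_num) (by norm_num) (by norm_num)
        _ ≤ K ^ (1 / 10 : ℝ) := Real.rpow_le_rpow (by norm_num) hKd (by norm_num)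
        _ ≤ K ^ a := Real.rpow_le_rpow_of_exponent_le hK1.le g2
    have hρ : K ^ (-a) ≤ 1 / 20 := by
      rw [Real.rpow_neg hK0.le, one_div]
      exact inv_anti₀ (by norm_num) h20
    have hSQ : K ^ s ≤ (K ^ q) ^ 4 := by
      have e4 : (K ^ q) ^ 4 = K ^ (4 * q) := by
        rw [← Real.rpow_natCast, ← Real.rpow_mul hK0.le]
        congr 1
        push_cast
        ring
      rw [e4]
      exact Real.rpow_le_rpow_of_exponent_le hK1.le (by linarith)
    have ht := triv K t.x t.y t.α t.β t.ω t.τ t.Δ t.l t.c (K ^ (-a)) (K ^ s) (K ^ q) (2 * K ^ q) P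
      hRf (Real.rpow_nonneg hK0.le _) hρ (Real.one_le_rpow hK1.le (by linarith))
      (Real.one_le_rpow hK1.le (by linarith)) hSQ hP
    refine ht.trans ?_
    have e5 : (K ^ s) ^ 2 * K ^ (-a) = K ^ (2 * s - a) := by
      rw [← Real.rpow_natCast, ← Real.rpow_mul hK0.le, ← Real.rpow_add hK0]
      congr 1
      push_cast
      ring
    rw [e5]
    have e6 : K ^ (2 * s - a) ≤ K ^ (H.omg d (a - H.yy s d)) :=
      Real.rpow_le_rpow_of_exponent_le hK1.le g5
    have e7 : 1 ≤ K ^ (H.omg d (a - H.yy s d)) := Real.one_le_rpow hK1.le hom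
    have e8 : 0 ≤ max C 0 := le_max_right _ _
    nlinarith
  · -- the box theorem
    have hsig : 2 * |t.ω| / (3 * t.α * t.τ) ≤ 2 * K ^ s := by
      rw [← own.sig]
      exact hcell.s2
    have hτq : 1 / t.τ ≤ 3 / 2 * K ^ q := hcell.q2
    obtain ⟨hΔ, hω, hl', hc'⟩ := G3.of_dep own.a_pos own.tau_pos own.dep
    have hKq : 0 < K ^ q := Real.rpow_pos_of_pos hK0 q
    have hKs : 0 < K ^ s := Real.rpow_pos_of_pos hK0 s
    have hKdd : 0 < K ^ d := Real.rpow_pos_of_pos hK0 d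
    have hαle : (t.α : ℝ) ≤ K ^ (1 + d + 3 * q) := by
      have e1 : (t.α : ℝ) = t.Δ * (1 / t.τ) ^ 3 := by
        rw [hΔ]
        field_simp
      have e2 : (1 / t.τ) ^ 3 ≤ (3 / 2 * K ^ q) ^ 3 :=
        pow_le_pow_left₀ (by positivity) hτq 3
      have e3 : t.Δ * (1 / t.τ) ^ 3 ≤ (2 * K ^ d) * (3 / 2 * K ^ q) ^ 3 :=
        mul_le_mul hcell.d2 e2 (by positivity) (by positivity)
      have e4 : (2 * K ^ d) * (3 / 2 * K ^ q) ^ 3 = 27 / 4 * K ^ (d + 3 * q) := by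
        have e5 : (K ^ q) ^ 3 = K ^ (3 * q) := by
          rw [← Real.rpow_natCast, ← Real.rpow_mul hK0.le]
          congr 1
          push_cast
          ring
        rw [mul_pow, e5, Real.rpow_add hK0]
        ring
      rw [e1]
      refine e3.trans ?_
      rw [e4]
      exact rpow_mul_le hK1 (by linarith) (by linarith)
    have hx0 : (0 : ℝ) < t.x := lt_of_lt_of_le (Real.rpow_pos_of_pos hK0 _) hcell.gi.x_ge
    have hxle : (t.x : ℝ) ≤ K ^ (C₀ + 1) := by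
      refine b2.trans ?_
      refine rpow_mul_le hK1 (by linarith) (by linarith)
    have hyle : |(t.y : ℝ)| ≤ K ^ (3 * C₀ + 4) := by
      have hy0 : (1 : ℝ) ≤ t.y := by exact_mod_cast hcell.gi.y_pos
      rw [abs_of_pos (by linarith)]
      have hk := (abs_le.1 hcell.gi.k_le).2
      push_cast at hk
      have hx3 : (t.x : ℝ) ^ 3 ≤ (K ^ (C₀ + 1)) ^ 3 := pow_le_pow_left₀ hx0.le hxle 3
      have e5 : (K ^ (C₀ + 1)) ^ 3 = K ^ (3 * C₀ + 3) := by
        rw [← Real.rpow_natCast, ← Real.rpow_mul hK0.le]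
        congr 1
        push_cast
        ring
      have e6 : K ≤ K ^ (3 * C₀ + 3) := by
        calc K = K ^ (1 : ℝ) := (Real.rpow_one K).symm
          _ ≤ K ^ (3 * C₀ + 3) := Real.rpow_le_rpow_of_exponent_le hK1.le (by linarith)
      have e7 : 2 * K ^ (3 * C₀ + 3) ≤ K ^ (3 * C₀ + 4) :=
        rpow_mul_le hK1 (by linarith) (by linarith)
      rw [e5] at hx3
      nlinarith
    have hβle : |(t.β : ℝ)| ≤ K ^ (6 * C₀ + 20) := by
      have e1 : (t.β : ℝ) = 3 * t.α * t.ω := by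
        rw [hω]
        field_simp
      have e2 : |t.ω| ≤ 3 * t.α * K ^ s := by
        rw [div_le_iff₀ (by positivity)] at hsig
        have e3 : K ^ s * (3 * t.α * t.τ) ≤ K ^ s * (3 * t.α) := by
          apply mul_le_mul_of_nonneg_left _ hKs.le
          nlinarith
        nlinarith
      rw [e1, abs_mul, abs_of_pos (by positivity : (0 : ℝ) < 3 * t.α)]
      have hα' : 0 ≤ K ^ (1 + d + 3 * q) := Real.rpow_nonneg hK0.le _
      calc 3 * (t.α : ℝ) * |t.ω| ≤ 3 * t.α * (3 * t.α * K ^ s) := by gcongr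
        _ = 9 * ((t.α : ℝ) * t.α) * K ^ s := by ring
        _ ≤ 9 * (K ^ (1 + d + 3 * q) * K ^ (1 + d + 3 * q)) * K ^ s := by gcongr
        _ = 9 * K ^ (2 * (1 + d + 3 * q) + s) := by
            rw [← Real.rpow_add hK0, mul_assoc, ← Real.rpow_add hK0]
            congr 2
            ring
        _ ≤ K ^ (6 * C₀ + 20) := rpow_mul_le hK1 (by linarith) (by linarith)
    have hcc : |t.c| ≤ K ^ ((a - H.yy s d) - a) := by
      have e1 : (a - H.yy s d) - a = -(H.yy s d) := by ring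
      rw [e1]
      rcases own.type with h | h
      · exact a5 h
      · rw [(a6 h).2.1, neg_zero, Real.rpow_zero]
        exact own.c_le
    have hll : 1 / 10 ≤ a - (a - H.yy s d) → |t.l| = 1 := by
      intro h1
      rcases own.type with h | h
      · exact h.1
      · rw [(a6 h).2.1] at h1
        norm_num at h1
    have hH : K ^ ε₁ * (46656 * K) ^ 2 ≤ 1296 * K ^ (53 / 20 : ℝ) := by
      have e1 : K ^ (53 / 20 : ℝ) = K ^ ε₁ * K ^ (2 : ℝ) * K ^ (13 / 20 - ε₁) := by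
        rw [← Real.rpow_add hK0, ← Real.rpow_add hK0]
        congr 1
        ring
      have e2 : (10000000 : ℝ) ≤ K ^ (13 / 20 - ε₁) := by
        calc (10000000 : ℝ) = (100000000000000 : ℝ) ^ (1 / 2 : ℝ) := by
              rw [← Real.sqrt_eq_rpow]
              rw [show (100000000000000 : ℝ) = 10000000 ^ 2 by norm_num]
              rw [Real.sqrt_sq (by norm_num)]
          _ ≤ K ^ (1 / 2 : ℝ) := Real.rpow_le_rpow (by norm_num) hKd (by norm_num)
          _ ≤ K ^ (13 / 20 - ε₁) := Real.rpow_le_rpow_of_exponent_le hK1.le (by linarith)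
      have e3 : K ^ (2 : ℝ) = K ^ 2 := by
        rw [← Real.rpow_natCast]
        norm_num
      rw [e1, e3]
      have e4 : 0 < K ^ ε₁ * K ^ 2 := by
        have := Real.rpow_pos_of_pos hK0 ε₁
        positivity
      have e5 : 1296 * (K ^ ε₁ * K ^ 2 * 10000000) ≤
          1296 * (K ^ ε₁ * K ^ 2 * K ^ (13 / 20 - ε₁)) := by gcongr
      nlinarith
    have hb : (1 : ℝ) / (20 * C₀ + 1000) ≤ 1 / 1000 :=
      one_div_le_one_div_of_le (by norm_num) (by linarith)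
    have hpow : ∀ e : ℝ, e ≤ 20 * C₀ + 1000 → K ^ e ≤ K ^ (20 * C₀ + 1000) := fun e he =>
      Real.rpow_le_rpow_of_exponent_le hK1.le he
    have hqle : 4 * q ≤ C₀ := by linarith
    have hmain := hbb K hKc t.x t.y t.α t.β t.ω t.τ t.Δ t.l t.c s d q a (a - H.yy s d)
      (H.omg d (a - H.yy s d)) (46656 * K) (1296 * K ^ (53 / 20 : ℝ)) hRf hcell.d1 hcell.d2
      hcc hll (by linarith) (by linarith) (by linarith) (by linarith) (by linarith) (by linarith)
      (by linarith) (by linarith) (by linarith) (by linarith) (by linarith) (by linarith)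
      (hsig.trans (rpow_mul_le hK1 (by linarith) (by linarith)))
      (hτq.trans (rpow_mul_le hK1 (by linarith) (by linarith)))
      (hαle.trans (hpow _ (by linarith)))
      (by rw [abs_of_pos hx0]; exact hxle.trans (hpow _ (by linarith)))
      (hyle.trans (hpow _ (by linarith))) (hβle.trans (hpow _ (by linarith)))
      (cond_mono hε₁a (by positivity) g5) hH P ?_ ?_ hP.np hP.inv
    · refine hmain.trans ?_
      have e1 : K ^ (H.omg d (a - H.yy s d) + ε₁) ≤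
          K ^ (H.omg d (a - H.yy s d) + 1 / 100000) :=
        Real.rpow_le_rpow_of_exponent_le hK1.le (by linarith)
      have e2 : 0 ≤ K ^ (H.omg d (a - H.yy s d) + ε₁) := Real.rpow_nonneg hK0.le _
      calc C * K ^ (H.omg d (a - H.yy s d) + ε₁)
          ≤ max C 0 * K ^ (H.omg d (a - H.yy s d) + ε₁) :=
            mul_le_mul_of_nonneg_right (le_max_left _ _) e2
        _ ≤ max C 0 * K ^ (H.omg d (a - H.yy s d) + 1 / 100000) :=
            mul_le_mul_of_nonneg_left e1 (le_max_right _ _)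
        _ ≤ _ := by nlinarith
    · intro p hp
      have d1 := hP.dd1 p hp
      have d2 := hP.dd2 p hp
      unfold dd at d1 d2
      exact ⟨hP.val p hp, hP.jne p hp, hP.rr p hp, hP.xi1 p hp, hP.xi2 p hp,
        by linarith, by linarith⟩
    · intro p hp
      exact ⟨hP.jle p hp, hP.hge p hp⟩

end Pool.Agent.Work.MP_f2148a_nt.M56.S2
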