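import Pool.Agent.Work.MP_f2148a_nt.M56.S1.Main
import Pool.Agent.Work.MP_f2148a_nt.M56.S2.Defs

set_option autoImplicit false

/-!
# S2/Pts (M): the close giants give integral points of the box of the reference giant

Uses `transfer` (S1/Main), `inj_pt` (S1/Inj), `prim_eq` (S1/Prim).

PROOF. For `t ∈ N` apply `transfer` to the reference `i` and `t` (`Δ_t ≤ 2D ≤ 2Δ_i` etc.): integers `s, t', X, Y` with
`3sF0+t'G1 = 3`, `J432 = -46656(y_t²-x_t³)`, `Hq = -1296x_t`, `|τ_i Y| ≤ (4/3)ρ|ξ|`, `3/4 ≤ ξτ_t ≤ 4/3`, `σ_t/2 ≤ d₂ ≤ 2σ_t`.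
Choose such a quadruple `f t` for every `t ∈ N`, `P = image f N`. `Q ≤ 1/τ_t ≤ R` gives `(3/4)Q ≤ |ξ| ≤ (4/3)R`; `S ≤ σ_t ≤ 2S`
gives `S/2 ≤ d₂ ≤ 4S`; `|J432| ≤ 46656K`, nonzero; `|Hq| = 1296 x_t ≥ 1296 K^(53/20)`.
Different `t, t'` have different invariants: if `Hq³J' = Hq'³J` for `f t`, `f t'` then `x_t³k_t' = x_t'³k_t`
(`k = y²-x³`; cancel the constants), so by `prim_eq` (`x, y > 0`, primitive) `(x_t, y_t) = (x_t', y_t')`, `t = t'` by `Inj2`.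
Hence `f` is injective on `N` and `inv` holds. `np`: if `(s,t')`, `(s₁,t₁')` are proportional, `inj_pt` (with `Q₁ = (3/4)Q ≥ 2`,
`R₁ = (4/3)R ≤ Q₁²`) gives equal `(s,t')` and `(X,Y) = ±(X₁,Y₁)`, so `Hq`, `J432` are equal (`Hq` is even in `(X,Y)`), and
again `t = t'`.
-/

namespace Pool.Agent.Work.MP_f2148a_nt.M56.S2

/-- The integral data produced by a close giant. -/
private structure Wt (i t : Dt) (ρ : ℝ) (p : ℤ × ℤ × ℤ × ℤ) : Prop where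
  d3 : ∀ j, (3 : ℤ) ∣ q4 i.x i.y i.α i.β p.1 p.2.1 j
  val : 3 * p.1 * F0 i.x i.y p.2.2.1 p.2.2.2 + p.2.1 * G1 i.x i.y i.α i.β p.2.2.1 p.2.2.2 = 3
  jj : J432 (q4 i.x i.y i.α i.β p.1 p.2.1) = -46656 * (t.y ^ 2 - t.x ^ 3)
  hh : Hq (q4 i.x i.y i.α i.β p.1 p.2.1) p.2.2.1 p.2.2.2 = -1296 * t.x
  rr : |i.τ * (p.2.2.2 : ℝ)| ≤ 4 / 3 * ρ * |xi i.ω i.τ p.2.2.1 p.2.2.2|
  x1 : 3 / 4 ≤ xi i.ω i.τ p.2.2.1 p.2.2.2 * t.τ
  x2 : xi i.ω i.τ p.2.2.1 p.2.2.2 * t.τ ≤ 4 / 3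
  d1 : t.σ / 2 ≤ dd i.α i.ω i.τ p.1 p.2.1
  d2 : dd i.α i.ω i.τ p.1 p.2.1 ≤ 2 * t.σ

private theorem Hq_neg (f : Fin 5 → ℤ) (X Y : ℤ) : Hq f (-X) (-Y) = Hq f X Y := by
  simp only [Hq]; ring

private theorem eq_of_inv {K : ℝ} {J : Finset Dt} (hJ : Inj2 J) {t t' : Dt} (ht : t ∈ J)
    (ht' : t' ∈ J) (g : Gi K t) (g' : Gi K t') (hK : 1 ≤ K)
    (h : t.x ^ 3 * (t'.y ^ 2 - t'.x ^ 3) = t'.x ^ 3 * (t.y ^ 2 - t.x ^ 3)) : t = t' := by
  have hx : 0 < t.x := by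
    have h1 : (0 : ℝ) < K ^ (53 / 20 : ℝ) := Real.rpow_pos_of_pos (by linarith) _
    have h2 : (0 : ℝ) < (t.x : ℝ) := h1.trans_le g.x_ge
    exact_mod_cast h2
  have hx' : 0 < t'.x := by
    have h1 : (0 : ℝ) < K ^ (53 / 20 : ℝ) := Real.rpow_pos_of_pos (by linarith) _
    have h2 : (0 : ℝ) < (t'.x : ℝ) := h1.trans_le g'.x_ge
    exact_mod_cast h2
  obtain ⟨e1, e2⟩ := prim_eq hx hx' g.y_pos g'.y_pos g.prim g'.prim h
  exact hJ t ht t' ht' e1 e2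

theorem pts : ∃ K₀ : ℝ, 1 < K₀ ∧ ∀ K : ℝ, K₀ ≤ K → ∀ (D S Q R ρ : ℝ) (i : Dt) (N : Finset Dt),
    InC K D S Q R i →
    (∀ t ∈ N, InC K D S Q R t ∧ Close ρ i.z i.τ t.z t.τ) → Inj2 N →
    0 ≤ ρ → ρ ≤ 1 / 100 → 4 ≤ Q → 4 / 3 * R ≤ (3 / 4 * Q) ^ 2 →
    ∃ P : Finset (ℤ × ℤ × ℤ × ℤ), P.card = N.card ∧
      Pf K i.x i.y i.α i.β i.ω i.τ (4 / 3 * ρ) S (3 / 4 * Q) (4 / 3 * R) P := by
  refine ⟨10 ^ 10, by norm_num, fun K hK D S Q R ρ i N hi hN hJ hρ0 hρ hQ hR => ?_⟩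
  have hK1 : (1 : ℝ) ≤ K := le_trans (by norm_num) hK
  have hK0 : 0 < K := by linarith
  have hK5 : 100 ≤ K ^ (1 / 5 : ℝ) := by
    have h1 : ((10 : ℝ) ^ 10) ^ (1 / 5 : ℝ) ≤ K ^ (1 / 5 : ℝ) :=
      Real.rpow_le_rpow (by norm_num) hK (by norm_num)
    have h2 : ((10 : ℝ) ^ 10) ^ (1 / 5 : ℝ) = 100 := by
      rw [← Real.rpow_natCast, ← Real.rpow_mul (by norm_num)]
      norm_num
    linarith
  have hA : 16 ≤ K ^ (25 / 63 : ℝ) := by
    have h1 : K ^ (1 / 5 : ℝ) ≤ K ^ (25 / 63 : ℝ) :=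
      Real.rpow_le_rpow_of_exponent_le hK1 (by norm_num)
    linarith
  have hw : ∀ t ∈ N, ∃ p : ℤ × ℤ × ℤ × ℤ, Wt i t ρ p := by
    intro t ht
    obtain ⟨hc, hcl⟩ := hN t ht
    obtain ⟨s, u, X, Y, h1, h2, h3, h4, h5, h6, h7, h8, h9⟩ :=
      transfer hK0 hK5 (by linarith : (4 : ℝ) ≤ K ^ (25 / 63 : ℝ)) hi.gi.own hc.gi.own hρ
        (by have := hc.d2; have := hi.d1; linarith) (by have := hi.d2; have := hc.d1; linarith) hcl
    exact ⟨(s, u, X, Y), ⟨h1, h2, h3, h4, h5, h6, h7, h8, h9⟩⟩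
  choose! f hf using hw
  -- equality of the invariants gives equality of the giants
  have key : ∀ t ∈ N, ∀ t' ∈ N,
      (Hq (q4 i.x i.y i.α i.β (f t).1 (f t).2.1) (f t).2.2.1 (f t).2.2.2) ^ 3 *
          J432 (q4 i.x i.y i.α i.β (f t').1 (f t').2.1)
        = (Hq (q4 i.x i.y i.α i.β (f t').1 (f t').2.1) (f t').2.2.1 (f t').2.2.2) ^ 3 *
          J432 (q4 i.x i.y i.α i.β (f t).1 (f t).2.1) → t = t' := by
    intro t ht t' ht' h
    rw [(hf t ht).hh, (hf t ht).jj, (hf t' ht').hh, (hf t' ht').jj] at h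
    exact eq_of_inv hJ ht ht' (hN t ht).1.gi (hN t' ht').1.gi hK1 (by nlinarith [h])
  have hinj : Set.InjOn f (N : Set Dt) := by
    intro t ht t' ht' h
    refine key t ht t' ht' ?_
    rw [h]
  -- the real coordinate
  have hxi : ∀ t ∈ N, 3 / 4 * Q ≤ xi i.ω i.τ (f t).2.2.1 (f t).2.2.2 ∧
      xi i.ω i.τ (f t).2.2.1 (f t).2.2.2 ≤ 4 / 3 * R := by
    intro t ht
    have hc := (hN t ht).1
    have hτ := hc.gi.own.tau_pos
    have w := hf t ht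
    have e : xi i.ω i.τ (f t).2.2.1 (f t).2.2.2 =
        xi i.ω i.τ (f t).2.2.1 (f t).2.2.2 * t.τ * (1 / t.τ) := by
      field_simp
    have hp : 0 < 1 / t.τ := by positivity
    constructor
    · rw [e]
      calc 3 / 4 * Q ≤ 3 / 4 * (1 / t.τ) := by have := hc.q1; linarith
        _ ≤ xi i.ω i.τ (f t).2.2.1 (f t).2.2.2 * t.τ * (1 / t.τ) :=
          mul_le_mul_of_nonneg_right w.x1 hp.le
    · rw [e]
      calc xi i.ω i.τ (f t).2.2.1 (f t).2.2.2 * t.τ * (1 / t.τ) ≤ 4 / 3 * (1 / t.τ) :=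
          mul_le_mul_of_nonneg_right w.x2 hp.le
        _ ≤ 4 / 3 * R := by have := hc.q2; linarith
  have hxa : ∀ t ∈ N, |xi i.ω i.τ (f t).2.2.1 (f t).2.2.2| =
      xi i.ω i.τ (f t).2.2.1 (f t).2.2.2 := by
    intro t ht
    exact abs_of_nonneg (by have := (hxi t ht).1; linarith)
  have hσ : ∀ t ∈ N, 2 ≤ t.σ := by
    intro t ht
    have o := (hN t ht).1.gi.own
    have h1 := o.sig_ge
    have h2 : 0 ≤ t.σ := by
      rw [o.sig]
      have := o.a_pos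
      have h3 : (0 : ℝ) < t.α := by exact_mod_cast (by omega : 0 < t.α)
      have := o.tau_pos
      positivity
    nlinarith
  refine ⟨N.image f, Finset.card_image_of_injOn hinj, ?_⟩
  have himg : ∀ p ∈ N.image f, ∃ t ∈ N, f t = p := by
    intro p hp
    simpa only [Finset.mem_image] using hp
  constructor
  · intro p hp
    obtain ⟨t, ht, rfl⟩ := himg p hp
    exact (hf t ht).val
  · intro p hp
    obtain ⟨t, ht, rfl⟩ := himg p hp
    rw [(hf t ht).jj]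
    have := (hN t ht).1.gi.k_ne
    omega
  · intro p hp
    obtain ⟨t, ht, rfl⟩ := himg p hp
    exact (hf t ht).rr
  · intro p hp
    obtain ⟨t, ht, rfl⟩ := himg p hp
    rw [hxa t ht]
    exact (hxi t ht).1
  · intro p hp
    obtain ⟨t, ht, rfl⟩ := himg p hp
    rw [hxa t ht]
    exact (hxi t ht).2
  · intro p hp
    obtain ⟨t, ht, rfl⟩ := himg p hp
    have := (hf t ht).d1
    have := (hN t ht).1.s1
    linarith
  · intro p hp
    obtain ⟨t, ht, rfl⟩ := himg p hp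
    have := (hf t ht).d2
    have := (hN t ht).1.s2
    linarith
  · intro p hp
    obtain ⟨t, ht, rfl⟩ := himg p hp
    rw [(hf t ht).jj]
    have h1 := (hN t ht).1.gi.k_le
    push_cast at h1 ⊢
    rw [abs_mul]
    rw [show |(-46656 : ℝ)| = 46656 by norm_num]
    exact mul_le_mul_of_nonneg_left h1 (by norm_num)
  · intro p hp
    obtain ⟨t, ht, rfl⟩ := himg p hp
    rw [(hf t ht).hh]
    have h1 := (hN t ht).1.gi.x_ge
    push_cast
    rw [abs_mul, show |(-1296 : ℝ)| = 1296 by norm_num]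
    exact mul_le_mul_of_nonneg_left (h1.trans (le_abs_self _)) (by norm_num)
  · intro p hp p' hp' hne hprop
    obtain ⟨t, ht, rfl⟩ := himg p hp
    obtain ⟨t', ht', rfl⟩ := himg p' hp'
    apply hne
    have w := hf t ht
    have w' := hf t' ht'
    have o := hi.gi.own
    obtain ⟨e1, e2, e3⟩ := inj_pt (ρ := 4 / 3 * ρ) (Q := 3 / 4 * Q) (R := 4 / 3 * R) o.a_pos
      o.tau_pos o.dep o.l_le o.c_le (by have := o.D_ge; linarith) (by linarith) (by linarith) hR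
      w.d3 w'.d3 w.val w'.val w.rr w'.rr
      (by have := (hxi t ht).1; rw [← hxa t ht] at this; exact this)
      (by have := (hxi t' ht').1; rw [← hxa t' ht'] at this; exact this)
      (by have := (hxi t ht).2; rw [← hxa t ht] at this; exact this)
      (by have := (hxi t' ht').2; rw [← hxa t' ht'] at this; exact this)
      (by have h1 := w.d1; have h2 := hσ t ht; simp only [dd] at h1; linarith)
      (by have h1 := w'.d1; have h2 := hσ t' ht'; simp only [dd] at h1; linarith) hprop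
    refine congrArg f (key t ht t' ht' ?_)
    rw [e1, e2]
    rcases e3 with ⟨e4, e5⟩ | ⟨e4, e5⟩
    · rw [e4, e5]
    · rw [e4, e5, Hq_neg]
  · intro p hp p' hp' hne h
    obtain ⟨t, ht, rfl⟩ := himg p hp
    obtain ⟨t', ht', rfl⟩ := himg p' hp'
    exact hne (congrArg f (key t ht t' ht' h))

end Pool.Agent.Work.MP_f2148a_nt.M56.S2
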