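import Pool.Agent.Work.MP_f2148a_nt.M56.S2.Cover
import Pool.Agent.Work.MP_f2148a_nt.M56.S2.CloseSymm
import Pool.Agent.Work.MP_f2148a_nt.M56.S2.Pts
import Pool.Agent.Work.MP_f2148a_nt.M56.S2.NBoxes
import Pool.Agent.Work.MP_f2148a_nt.M56.S2.PerBox

set_option autoImplicit false

/-!
# S2/Cell (M): one cell, bounded range

PROOF. `ε` from `H.num C₀`. If `J = ∅` nothing to do; otherwise a member of `J` gives the constraints on the exponents
(`exps1`, `exps2`), `H.num` gives `a` with `Good ε s d q a`. `ρ = (3/4) K^(-a)`. `cover` with `R t t' := Close ρ t.z t.τ t'.z t'.τ`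
(`CloseSymm`), `M = C K^(4d+(a-yy)+10^-5)` (`nboxes (1/100000)`), `B = C' K^(omg+10^-5)`: for `i ∈ J` the set
`N = {t ∈ J | R i t}` gives by `pts` (`Q := (4/3)K^q`, `R := (3/2)K^q`; `4 ≤ Q` and `2K^q ≤ K^(2q)` for large `K` as
`q ≥ 1/5` by `exps1`, `exps2`; `(4/3)ρ = K^(-a)`, `ρ ≤ 1/100` for large `K`) a set `P` with `P.card = N.card` and `Pf`,
rewrite `3/4*(4/3*K^q) = K^q`, `4/3*(3/2*K^q) = 2*K^q`, `4/3*(3/4*K^(-a)) = K^(-a)`, and `perbox`. The product is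
`C C' K^(4d+(a-yy)+omg+2·10^-5) = C C' K^(5/6-10^-4+2·10^-5)` (`omg d t = 5/6-10^-4-4d-t`).
-/

namespace Pool.Agent.Work.MP_f2148a_nt.M56.S2

theorem cell (C₀ : ℝ) (hC : 1 ≤ C₀) : ∃ C K₀ : ℝ, 1 < K₀ ∧ ∀ K : ℝ, K₀ ≤ K →
    ∀ (d s q : ℝ) (J : Finset Dt),
      (∀ t ∈ J, InC K (K ^ d) (K ^ s) (4 / 3 * K ^ q) (3 / 2 * K ^ q) t) → Inj2 J →
      4 * q + 2 * (d + s) ≤ C₀ → (J.card : ℝ) ≤ C * K ^ (5 / 6 - 7 / 100000 : ℝ) := by
  classical
  obtain ⟨ε, hε, hnum⟩ := H.num C₀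
  obtain ⟨Cn, Kn, hKn, hn⟩ := nboxes (1 / 100000) (by norm_num)
  obtain ⟨Cp, Kp, hKp, hp⟩ := perbox ε C₀ hε hC
  obtain ⟨Kt, hKt, ht⟩ := pts
  obtain ⟨K1, hK1, h1⟩ := exps1
  obtain ⟨K2, hK2, h2⟩ := exps2
  refine ⟨|Cn| * |Cp|, Kn + Kp + Kt + K1 + K2 + 100 ^ 10, by linarith, ?_⟩
  intro K hK d s q J hJ hinj hC0
  have hKbig : (100 : ℝ) ^ 10 ≤ K := by linarith
  have hKone : 1 ≤ K := le_trans (by norm_num) hKbig
  have hK0 : 0 < K := by linarith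
  rcases J.eq_empty_or_nonempty with rfl | ⟨t₀, ht₀⟩
  · simp only [Finset.card_empty, Nat.cast_zero]
    positivity
  obtain ⟨d0, d1, sd0, sd1, -, -⟩ := h1 K (by linarith) d s _ _ t₀ (hJ t₀ ht₀)
  obtain ⟨x0, -⟩ := h2 K (by linarith) d s q t₀ (hJ t₀ ht₀)
  obtain ⟨a, ha⟩ := hnum s d q d0 (by linarith) sd0 sd1 x0 hC0
  have hq : 1 / 5 ≤ q := by linarith
  have h10 : 100 ≤ K ^ (1 / 10 : ℝ) := by
    have h3 : ((100 : ℝ) ^ 10) ^ (1 / 10 : ℝ) ≤ K ^ (1 / 10 : ℝ) :=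
      Real.rpow_le_rpow (by norm_num) hKbig (by norm_num)
    have h4 : ((100 : ℝ) ^ 10) ^ (1 / 10 : ℝ) = 100 := by
      rw [← Real.rpow_natCast, ← Real.rpow_mul (by norm_num)]
      norm_num
    linarith
  have hKq : 100 ≤ K ^ q := by
    have : K ^ (1 / 10 : ℝ) ≤ K ^ q := Real.rpow_le_rpow_of_exponent_le hKone (by linarith)
    linarith
  have hKa : K ^ (-a) ≤ 1 / 100 := by
    rw [Real.rpow_neg hK0.le, ← one_div]
    have : K ^ (1 / 10 : ℝ) ≤ K ^ a := Real.rpow_le_rpow_of_exponent_le hKone ha.a1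
    exact one_div_le_one_div_of_le (by norm_num) (by linarith)
  have hKa0 : 0 < K ^ (-a) := Real.rpow_pos_of_pos hK0 _
  have hmain := cover J (fun t t' => Close (3 / 4 * K ^ (-a)) t.z t.τ t'.z t'.τ)
    (|Cn| * K ^ (4 * d + (a - H.yy s d) + 1 / 100000))
    (|Cp| * K ^ (H.omg d (a - H.yy s d) + 1 / 100000)) (by positivity)
    (fun t _ => close_refl _ (by positivity) _ _) (fun t _ t' _ h => close_symm h) ?_ ?_
  · refine hmain.trans ?_
    have e : |Cn| * K ^ (4 * d + (a - H.yy s d) + 1 / 100000) *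
        (|Cp| * K ^ (H.omg d (a - H.yy s d) + 1 / 100000)) =
        |Cn| * |Cp| * K ^ (5 / 6 - 8 / 100000 : ℝ) := by
      have e1 : (5 / 6 - 8 / 100000 : ℝ) = (4 * d + (a - H.yy s d) + 1 / 100000) +
          (H.omg d (a - H.yy s d) + 1 / 100000) := by
        rw [H.omg]; ring
      rw [e1, Real.rpow_add hK0 (4 * d + (a - H.yy s d) + 1 / 100000)
        (H.omg d (a - H.yy s d) + 1 / 100000)]
      ring
    rw [e]
    exact mul_le_mul_of_nonneg_left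
      (Real.rpow_le_rpow_of_exponent_le hKone (by norm_num)) (by positivity)
  · intro I hI hsep
    have h3 := hn K (by linarith) d s _ _ a I (fun t ht => hJ t (hI ht)) hsep ha.a1 ha.a0
    refine h3.trans (mul_le_mul_of_nonneg_right (le_abs_self _) ?_)
    exact (Real.rpow_pos_of_pos hK0 _).le
  · intro i hi
    obtain ⟨P, hP, hPf⟩ := ht K (by linarith) (K ^ d) (K ^ s) (4 / 3 * K ^ q) (3 / 2 * K ^ q)
      (3 / 4 * K ^ (-a)) i (J.filter fun j => Close (3 / 4 * K ^ (-a)) i.z i.τ j.z j.τ) (hJ i hi)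
      (fun t ht => ⟨hJ t (Finset.mem_filter.1 ht).1, (Finset.mem_filter.1 ht).2⟩)
      (fun t ht t' ht' => hinj t (Finset.mem_filter.1 ht).1 t' (Finset.mem_filter.1 ht').1)
      (by positivity) (by linarith) (by linarith)
      (by
        have e : (3 / 4 * (4 / 3 * K ^ q)) ^ 2 = K ^ q * K ^ q := by ring
        rw [e]
        nlinarith)
    have e1 : 4 / 3 * (3 / 4 * K ^ (-a)) = K ^ (-a) := by ring
    have e2 : 3 / 4 * (4 / 3 * K ^ q) = K ^ q := by ring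
    have e3 : 4 / 3 * (3 / 2 * K ^ q) = 2 * K ^ q := by ring
    rw [e1, e2, e3] at hPf
    have h4 := hp K (by linarith) d s q a i P (hJ i hi) hC0 ha hPf
    rw [hP] at h4
    refine h4.trans (mul_le_mul_of_nonneg_right (le_abs_self _) ?_)
    exact (Real.rpow_pos_of_pos hK0 _).le

end Pool.Agent.Work.MP_f2148a_nt.M56.S2
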