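import Pool.Agent.Work.MP_f2148a_nt.M56.S2.Cover
import Pool.Agent.Work.MP_f2148a_nt.M56.S2.CloseSymm
import Pool.Agent.Work.MP_f2148a_nt.M56.S2.Pts
import Pool.Agent.Work.MP_f2148a_nt.M56.S2.NBoxes
import Pool.Agent.Work.MP_f2148a_nt.M56.GL.Large

set_option autoImplicit false

/-!
# S2/CellL (M): one cell, large range (`1/τ ≥ K^(C₁)`)

Uses the box theorem of the large range (helper13's `GL.box_large`, below in the form `boxL`).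

PROOF of `cellL`. `boxL (1/1000)` gives `η₀, C₁, C, K₀`; `η = min (η₀/2) (1/4)`. `J ≠ ∅` without loss. `S = K^s`, `ρ' = (4S)^(-v)`,
`v = 9/8+1/1000`, `ρ = (3/4)ρ'`. By `exps1` `s ≥ 19/100`, so `S ≥ 2`, `ρ ≤ 1/100` for large `K`; `s ≤ 4/5`.
`cover` with `R = Close ρ`, `M = C K^(828/1000)` (`nboxesL`), `B = C'(1+log(1+log Q))`: for `i ∈ J`,
`N = {t ∈ J | R i t}`, `pts` (`R := Q^(1+η)`, `(4/3)Q^(1+η) ≤ ((3/4)Q)²` for large `K` as `η ≤ 1/4`, `Q ≥ K^(C₁) ≥ K`) gives `P` with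
`Pf .. ρ' S (3/4*Q) (4/3*Q^(1+η))`. With `Q' = (3/4)Q`: `(4/3)Q^(1+η) ≤ Q'^(1+η₀)` for large `K` (`Q^(η₀/2) ≥ 4`). Apply
`boxL` with `σ := 4S`, `ρ := ρ'`, `Q := Q'`, `η := η₀` (`Q' ≥ K^(C₁')`: choose the `C₁` of this theorem one larger). All
hypotheses on the reference data come from `Own` (`2|ω|/(3ατ) = σ ≤ 2K^s ≤ K²`, `Δ ≤ K`, `τ ≤ 1`).
-/

namespace Pool.Agent.Work.MP_f2148a_nt.M56.S2

theorem boxL (η' : ℝ) (hη' : 0 < η') :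
    ∃ η C₁ C K₀ : ℝ, 0 < η ∧ 1 ≤ C₁ ∧ ∀ K : ℝ, K₀ ≤ K →
    ∀ (x y α β : ℤ) (ω τ Δ l c ρ σ Q : ℝ),
      1 ≤ α → ω = (β : ℝ) / (3 * α) → 0 < τ → τ ≤ 1 → Dep (Z0 x y α β) ω τ Δ l c →
      |l| ≤ 1 → |c| ≤ 1 → 1 / 4 ≤ Δ → Δ ≤ K → 2 * |ω| / (3 * α * τ) ≤ K ^ (2 : ℝ) →
      K ^ (1 / 10 : ℝ) ≤ σ → σ ≤ K ^ (2 : ℝ) → K ^ C₁ ≤ Q →
      0 ≤ ρ → ρ ≤ σ ^ (-(9 / 8 + η')) →
      ∀ P : Finset (ℤ × ℤ × ℤ × ℤ),
        (∀ p ∈ P, InBox x y α β ω τ ρ σ Q η p) →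
        (∀ p ∈ P, ∀ p' ∈ P, p ≠ p' → p.1 * p'.2.1 ≠ p'.1 * p.2.1) →
        (∀ p ∈ P, ∀ p' ∈ P, p ≠ p' →
          (Hq (q4 x y α β p.1 p.2.1) p.2.2.1 p.2.2.2) ^ 3 * J432 (q4 x y α β p'.1 p'.2.1)
            ≠ (Hq (q4 x y α β p'.1 p'.2.1) p'.2.2.1 p'.2.2.2) ^ 3
              * J432 (q4 x y α β p.1 p.2.1)) →
        (P.card : ℝ) ≤ C * (1 + Real.log (1 + Real.log Q)) := by
  obtain ⟨η, hη, C, K₀, C₁, H⟩ := GL.box_large η' hη'
  refine ⟨η, max C₁ 1, C, max K₀ 1, hη, le_max_right _ _, ?_⟩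
  intro K hK x y α β ω τ Δ l c ρ σ Q h1 _ h3 h4 h5 h6 h7 h8 h9 h10 h11 h12 h13 _ h15 P
  have hK1 : 1 ≤ K := (le_max_right _ _).trans hK
  exact H K ((le_max_left _ _).trans hK) x y α β ω τ Δ l c ρ σ Q h1 h3 h4 h5 h6 h7 h8 h9 h10 h11 h12
    ((Real.rpow_le_rpow_of_exponent_le hK1 (le_max_left _ _)).trans h13) h15 P

private theorem bigL {K : ℝ} (hK : (1000 : ℝ) ^ (1000000 : ℝ) ≤ K) :
    1 < K ∧ 1000 ≤ K ^ (1 / 1000000 : ℝ) := by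
  have h0 : (0 : ℝ) < 1000 := by norm_num
  have h1 : (1 : ℝ) < (1000 : ℝ) ^ (1000000 : ℝ) :=
    Real.one_lt_rpow (by norm_num) (by norm_num)
  refine ⟨lt_of_lt_of_le h1 hK, ?_⟩
  have h2 : ((1000 : ℝ) ^ (1000000 : ℝ)) ^ (1 / 1000000 : ℝ) ≤ K ^ (1 / 1000000 : ℝ) :=
    Real.rpow_le_rpow (Real.rpow_nonneg h0.le _) hK (by norm_num)
  have h3 : (1000000 : ℝ) * (1 / 1000000) = 1 := by norm_num
  rw [← Real.rpow_mul h0.le, h3, Real.rpow_one] at h2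
  exact h2

/-- the numerical facts on `Q` -/
private theorem numQ {η₁ K Q : ℝ} (hη0 : 0 < η₁) (hη1 : η₁ ≤ 1) (hK1 : 1 < K)
    (hK : (3 : ℝ) ^ (2 / η₁) ≤ K) (hK3 : 1000 ≤ K ^ (1 / 1000000 : ℝ)) (hQ : K ≤ Q) :
    4 / 3 * Q ^ (1 + η₁ / 4) ≤ (3 / 4 * Q) ^ 2 ∧
      4 / 3 * Q ^ (1 + η₁ / 4) ≤ (3 / 4 * Q) ^ (1 + η₁) := by
  have hQ1 : 1 < Q := lt_of_lt_of_le hK1 hQ
  have hQ0 : 0 < Q := by linarith
  constructor
  · have h1 : Q ^ (1 + η₁ / 4) ≤ Q ^ (5 / 4 : ℝ) :=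
      Real.rpow_le_rpow_of_exponent_le hQ1.le (by linarith)
    have h2 : Q ^ (1 / 1000000 : ℝ) ≤ Q ^ (3 / 4 : ℝ) :=
      Real.rpow_le_rpow_of_exponent_le hQ1.le (by norm_num)
    have h3 : K ^ (1 / 1000000 : ℝ) ≤ Q ^ (1 / 1000000 : ℝ) :=
      Real.rpow_le_rpow (by linarith) hQ (by norm_num)
    have h4 : Q ^ 2 = Q ^ (5 / 4 : ℝ) * Q ^ (3 / 4 : ℝ) := by
      rw [← Real.rpow_add hQ0, ← Real.rpow_natCast]
      norm_num
    have h5 : 0 < Q ^ (5 / 4 : ℝ) := Real.rpow_pos_of_pos hQ0 _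
    have h6 : Q ^ (5 / 4 : ℝ) * 1000 ≤ Q ^ (5 / 4 : ℝ) * Q ^ (3 / 4 : ℝ) :=
      mul_le_mul_of_nonneg_left (by linarith) h5.le
    rw [mul_pow, h4]
    linarith
  · have h1 : (3 / 4 * Q) ^ (1 + η₁) = (3 / 4 : ℝ) ^ (1 + η₁) * Q ^ (1 + η₁) :=
      Real.mul_rpow (by norm_num) hQ0.le
    have h2 : (9 / 16 : ℝ) ≤ (3 / 4 : ℝ) ^ (1 + η₁) := by
      have h3 : (3 / 4 : ℝ) ^ (2 : ℝ) ≤ (3 / 4 : ℝ) ^ (1 + η₁) :=
        Real.rpow_le_rpow_of_exponent_ge (by norm_num) (by norm_num) (by linarith)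
      rw [Real.rpow_two] at h3
      norm_num at h3
      linarith
    have h4 : Q ^ (1 + η₁) = Q ^ (1 + η₁ / 4) * Q ^ (3 / 4 * η₁) := by
      rw [← Real.rpow_add hQ0]
      congr 1
      ring
    have h5 : 3 ≤ Q ^ (3 / 4 * η₁) := by
      have h6 : ((3 : ℝ) ^ (2 / η₁)) ^ (η₁ / 2) ≤ Q ^ (η₁ / 2) :=
        Real.rpow_le_rpow (by positivity) (hK.trans hQ) (by linarith)
      rw [← Real.rpow_mul (by norm_num)] at h6
      have h7 : 2 / η₁ * (η₁ / 2) = 1 := by field_simp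
      rw [h7, Real.rpow_one] at h6
      exact h6.trans (Real.rpow_le_rpow_of_exponent_le hQ1.le (by linarith))
    have h8 : 0 < Q ^ (1 + η₁ / 4) := Real.rpow_pos_of_pos hQ0 _
    rw [h1, h4]
    have h9 : Q ^ (1 + η₁ / 4) * 3 ≤ Q ^ (1 + η₁ / 4) * Q ^ (3 / 4 * η₁) :=
      mul_le_mul_of_nonneg_left h5 h8.le
    have h10 : 9 / 16 * (Q ^ (1 + η₁ / 4) * Q ^ (3 / 4 * η₁)) ≤
        (3 / 4 : ℝ) ^ (1 + η₁) * (Q ^ (1 + η₁ / 4) * Q ^ (3 / 4 * η₁)) :=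
      mul_le_mul_of_nonneg_right h2 (by positivity)
    linarith

open Classical in
theorem cellL : ∃ C₁ η C K₀ : ℝ, 0 < η ∧ 1 ≤ C₁ ∧ 1 < K₀ ∧ ∀ K : ℝ, K₀ ≤ K →
    ∀ (d s Q : ℝ) (J : Finset Dt), K ^ C₁ ≤ Q →
      (∀ t ∈ J, InC K (K ^ d) (K ^ s) Q (Q ^ (1 + η)) t) → Inj2 J →
      (J.card : ℝ) ≤ C * K ^ (828 / 1000 : ℝ) * (1 + Real.log (1 + Real.log Q)) := by
  obtain ⟨η₀, C₁, C, Kb, hη₀, hC₁, HB⟩ := boxL (1 / 1000) (by norm_num)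
  obtain ⟨Cn, Kn, -, HN⟩ := nboxesL
  obtain ⟨Ke, -, HE⟩ := exps1
  obtain ⟨Kp, -, HP⟩ := pts
  obtain ⟨η₁, hη₁0, hη₁1, hη₁⟩ : ∃ η₁ : ℝ, 0 < η₁ ∧ η₁ ≤ 1 ∧ η₁ ≤ η₀ :=
    ⟨min η₀ 1, lt_min hη₀ one_pos, min_le_right _ _, min_le_left _ _⟩
  obtain ⟨Kbig, hKbig⟩ : ∃ Kbig : ℝ, Kbig = (1000 : ℝ) ^ (1000000 : ℝ) := ⟨_, rfl⟩
  have hKbig1 : 1 < Kbig := by
    rw [hKbig]
    exact Real.one_lt_rpow (by norm_num) (by norm_num)
  refine ⟨C₁ + 1, η₁ / 4, Cn * max C 0,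
    max Kbig (max (3 ^ (2 / η₁)) (max Kb (max Kn (max Ke Kp)))), by linarith, by linarith,
    lt_max_of_lt_left hKbig1, ?_⟩
  intro K hK d s Q J hQ hJ hinj
  rw [max_le_iff, max_le_iff, max_le_iff, max_le_iff, max_le_iff] at hK
  obtain ⟨hK1, hK2, hK3, hK4, hK5, hK6⟩ := hK
  have hbig := bigL (hKbig ▸ hK1)
  clear hKbig hKbig1 hK1
  obtain ⟨hK1, hKe⟩ := hbig
  have hK0 : 0 < K := lt_trans one_pos hK1
  have hKK : 1000 ≤ K := by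
    refine hKe.trans ?_
    calc K ^ (1 / 1000000 : ℝ) ≤ K ^ (1 : ℝ) :=
          Real.rpow_le_rpow_of_exponent_le hK1.le (by norm_num)
      _ = K := Real.rpow_one K
  have hKC : K ^ C₁ * K ≤ Q := by
    rw [Real.rpow_add hK0, Real.rpow_one] at hQ
    exact hQ
  have hKC1 : 1 ≤ K ^ C₁ := Real.one_le_rpow hK1.le (by linarith)
  have hKQ : K ≤ Q := by
    refine le_trans ?_ hKC
    exact le_mul_of_one_le_left hK0.le hKC1
  have hQ1 : 1000 ≤ Q := hKK.trans hKQ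
  obtain ⟨hR1, hR2⟩ := numQ hη₁0 hη₁1 hK1 hK2 hKe hKQ
  have hlQ : 0 ≤ Real.log Q := Real.log_nonneg (by linarith)
  have hll : 0 ≤ Real.log (1 + Real.log Q) := Real.log_nonneg (by linarith)
  have hcov := cover J (fun i t => Close (3 / 4 * (4 * K ^ s) ^ (-(9 / 8 + 1 / 1000) : ℝ)) i.z i.τ t.z t.τ)
    (Cn * K ^ (828 / 1000 : ℝ)) (max C 0 * (1 + Real.log (1 + Real.log Q)))
    (by positivity) ?_ ?_ ?_ ?_
  · refine hcov.trans (le_of_eq ?_)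
    ring
  · intro i hi
    exact close_refl _ (by positivity) _ _
  · intro i hi j hj h
    exact close_symm h
  · intro I hI hsep
    exact HN K hK4 d s Q (Q ^ (1 + η₁ / 4)) I (fun t ht => hJ t (hI ht)) hsep
  · intro i hi
    have hiC := hJ i hi
    have hown := hiC.gi.own
    obtain ⟨hd1, hd2, hs1, hs2, -, -⟩ := HE K hK5 d s Q _ i hiC
    obtain ⟨S, hS⟩ : ∃ S : ℝ, S = K ^ s := ⟨_, rfl⟩
    have hs19 : 19 / 100 ≤ s := by linarith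
    have hs45 : s ≤ 4 / 5 := by linarith
    have hSbig : 1000 ≤ S := by
      rw [hS]
      exact hKe.trans (Real.rpow_le_rpow_of_exponent_le hK1.le (by linarith))
    have hS4 : 4 * S ≤ K ^ (2 : ℝ) := by
      have h1 : K ^ s ≤ K ^ (4 / 5 : ℝ) := Real.rpow_le_rpow_of_exponent_le hK1.le hs45
      have h2 : K ^ (1 / 1000000 : ℝ) * K ^ (4 / 5 : ℝ) ≤ K ^ (2 : ℝ) := by
        rw [← Real.rpow_add hK0]
        exact Real.rpow_le_rpow_of_exponent_le hK1.le (by norm_num)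
      have h3 : 1000 * K ^ (4 / 5 : ℝ) ≤ K ^ (1 / 1000000 : ℝ) * K ^ (4 / 5 : ℝ) :=
        mul_le_mul_of_nonneg_right hKe (Real.rpow_pos_of_pos hK0 _).le
      have h4 : 0 < K ^ (4 / 5 : ℝ) := Real.rpow_pos_of_pos hK0 _
      rw [hS]
      linarith
    obtain ⟨ρ', hρ'⟩ : ∃ ρ' : ℝ, ρ' = (4 * S) ^ (-(9 / 8 + 1 / 1000) : ℝ) := ⟨_, rfl⟩
    have hρ0 : 0 ≤ ρ' := by
      rw [hρ']
      exact Real.rpow_nonneg (by linarith) _
    have hρ1 : ρ' ≤ 1 / 1000 := by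
      have h1 : ρ' ≤ (4 * S) ^ (-1 : ℝ) := by
        rw [hρ']
        exact Real.rpow_le_rpow_of_exponent_le (by linarith) (by norm_num)
      rw [Real.rpow_neg_one] at h1
      refine h1.trans ?_
      rw [one_div]
      exact inv_anti₀ (by norm_num) (by linarith)
    have hN := HP K hK6 (K ^ d) S Q (Q ^ (1 + η₁ / 4)) (3 / 4 * ρ') i
      (J.filter fun t => Close (3 / 4 * ρ') i.z i.τ t.z t.τ)
      (by rw [hS]; exact hiC)
      (fun t ht => by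
        rw [Finset.mem_filter] at ht
        refine ⟨?_, ht.2⟩
        rw [hS]
        exact hJ t ht.1)
      (fun t ht t' ht' h1 h2 => hinj t (Finset.mem_filter.1 ht).1 t' (Finset.mem_filter.1 ht').1 h1 h2)
      (by linarith) (by linarith) (by linarith) hR1
    obtain ⟨P, hPc, hP⟩ := hN
    have hρe : 4 / 3 * (3 / 4 * ρ') = ρ' := by ring
    rw [hρe] at hP
    rw [← hS, ← hρ', ← hPc]
    have hτ1 : i.τ ≤ 1 := by
      refine hown.tau_le.trans ?_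
      exact Real.rpow_le_one_of_one_le_of_nonpos hK1.le (by norm_num)
    have hΔ : i.Δ ≤ K := by
      have h1 := hown.D_le
      have h2 : K ^ (25 / 63 : ℝ) ≤ K ^ (1 : ℝ) :=
        Real.rpow_le_rpow_of_exponent_le hK1.le (by norm_num)
      rw [Real.rpow_one] at h2
      by_contra hcon
      push Not at hcon
      nlinarith
    have hσ : 2 * |i.ω| / (3 * i.α * i.τ) ≤ K ^ (2 : ℝ) := by
      rw [← hown.sig]
      have := hiC.s2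
      rw [← hS] at this
      linarith
    have hS10 : K ^ (1 / 10 : ℝ) ≤ 4 * S := by
      have h1 : K ^ (1 / 10 : ℝ) ≤ K ^ s :=
        Real.rpow_le_rpow_of_exponent_le hK1.le (by linarith)
      rw [← hS] at h1
      linarith
    have hQC : K ^ C₁ ≤ 3 / 4 * Q := by
      have h1 : K ^ C₁ * 1000 ≤ K ^ C₁ * K := mul_le_mul_of_nonneg_left hKK (by linarith)
      linarith
    have hbox := HB K hK3 i.x i.y i.α i.β i.ω i.τ i.Δ i.l i.c ρ' (4 * S) (3 / 4 * Q)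
      hown.a_pos hown.om hown.tau_pos hτ1 hown.dep hown.l_le hown.c_le
      (by have := hown.D_ge; linarith) hΔ hσ hS10 hS4 hQC hρ0 (le_of_eq hρ') P ?_ hP.np hP.inv
    · refine hbox.trans ?_
      have h1 : Real.log (3 / 4 * Q) ≤ Real.log Q := Real.log_le_log (by linarith) (by linarith)
      have h2 : 0 ≤ Real.log (3 / 4 * Q) := Real.log_nonneg (by linarith)
      have h3 : Real.log (1 + Real.log (3 / 4 * Q)) ≤ Real.log (1 + Real.log Q) :=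
        Real.log_le_log (by linarith) (by linarith)
      have h4 : 0 ≤ Real.log (1 + Real.log (3 / 4 * Q)) := Real.log_nonneg (by linarith)
      calc C * (1 + Real.log (1 + Real.log (3 / 4 * Q)))
          ≤ max C 0 * (1 + Real.log (1 + Real.log (3 / 4 * Q))) :=
            mul_le_mul_of_nonneg_right (le_max_left _ _) (by linarith)
        _ ≤ max C 0 * (1 + Real.log (1 + Real.log Q)) :=
            mul_le_mul_of_nonneg_left (by linarith) (le_max_right _ _)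
    · intro p hp
      have hd1 := hP.dd1 p hp
      have hd2 := hP.dd2 p hp
      have hx2 := hP.xi2 p hp
      unfold dd at hd1 hd2
      have hpos : 0 < -(2 * i.ω * p.1) / (3 * i.α * i.τ) + p.2.1 * i.α / (3 * i.τ) := by linarith
      refine ⟨hP.val p hp, hP.jne p hp, hP.rr p hp, hP.xi1 p hp, ?_, ?_, ?_⟩
      · refine (hx2.trans hR2).trans ?_
        exact Real.rpow_le_rpow_of_exponent_le (by linarith) (by linarith)
      · rw [abs_of_pos hpos]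
        linarith
      · rw [abs_of_pos hpos]
        linarith

end Pool.Agent.Work.MP_f2148a_nt.M56.S2
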