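import Mathlib

set_option autoImplicit false

/-!
# S2/Cover (S-M): covering by a maximal separated family

PROOF. Among the subsets `I ⊆ J` with `∀ i ∈ I, ∀ j ∈ I, i ≠ j → ¬ R i j` (the empty set is one) choose one of
maximal cardinality. `I.card ≤ M` by `h1`. Every `j ∈ J` has some `i ∈ I` with `R i j` or `i = j`: otherwise
`insert j I` is a larger subset with the property (`R` is symmetric on `J`). By `refl` also `R j j`, so
`J ⊆ ⋃_(i ∈ I) {j ∈ J | R i j}` and `J.card ≤ ∑_(i ∈ I) card {j ∈ J | R i j} ≤ I.card * B ≤ M * B`.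
(`M ≥ 0` because `I = ∅` is allowed in `h1`; `B ≥ 0` is a hypothesis.)
-/

namespace Pool.Agent.Work.MP_f2148a_nt.M56.S2

open Classical in
theorem cover {ι : Type*} (J : Finset ι) (R : ι → ι → Prop) (M B : ℝ) (hB : 0 ≤ B)
    (refl : ∀ i ∈ J, R i i) (symm : ∀ i ∈ J, ∀ j ∈ J, R i j → R j i)
    (h1 : ∀ I ⊆ J, (∀ i ∈ I, ∀ j ∈ I, i ≠ j → ¬ R i j) → (I.card : ℝ) ≤ M)
    (h2 : ∀ i ∈ J, (((J.filter fun j => R i j).card : ℕ) : ℝ) ≤ B) : (J.card : ℝ) ≤ M * B := by
  set S : Finset (Finset ι) :=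
    J.powerset.filter (fun I => ∀ i ∈ I, ∀ j ∈ I, i ≠ j → ¬ R i j) with hS
  have hne : S.Nonempty := ⟨∅, by simp [hS]⟩
  obtain ⟨I, hI, hmax⟩ := Finset.exists_max_image S Finset.card hne
  rw [hS, Finset.mem_filter, Finset.mem_powerset] at hI
  obtain ⟨hIJ, hsep⟩ := hI
  have hIM := h1 I hIJ hsep
  have hcov : J ⊆ I.biUnion (fun i => J.filter fun j => R i j) := by
    intro j hj
    rw [Finset.mem_biUnion]
    by_contra hcon
    have hcon' : ∀ i ∈ I, j ∉ J.filter fun j => R i j := fun i hi h => hcon ⟨i, hi, h⟩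
    have hjI : j ∉ I := fun h => hcon' j h (Finset.mem_filter.2 ⟨hj, refl j hj⟩)
    have hR : ∀ i ∈ I, ¬ R i j := fun i hi h => hcon' i hi (Finset.mem_filter.2 ⟨hj, h⟩)
    have hmem : insert j I ∈ S := by
      rw [hS, Finset.mem_filter, Finset.mem_powerset]
      refine ⟨Finset.insert_subset hj hIJ, ?_⟩
      intro a ha b hb hab
      rw [Finset.mem_insert] at ha hb
      rcases ha with rfl | ha <;> rcases hb with rfl | hb
      · exact (hab rfl).elim
      · exact fun h => hR b hb (symm _ hj _ (hIJ hb) h)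
      · exact hR a ha
      · exact hsep a ha b hb hab
    have := hmax _ hmem
    rw [Finset.card_insert_of_notMem hjI] at this
    omega
  calc (J.card : ℝ) ≤ (((I.biUnion (fun i => J.filter fun j => R i j)).card : ℕ) : ℝ) := by
        exact_mod_cast Finset.card_le_card hcov
    _ ≤ ∑ i ∈ I, (((J.filter fun j => R i j).card : ℕ) : ℝ) := by
        exact_mod_cast Finset.card_biUnion_le
    _ ≤ ∑ _i ∈ I, B := Finset.sum_le_sum fun i hi => h2 i (hIJ hi)
    _ = I.card * B := by rw [Finset.sum_const, nsmul_eq_mul]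
    _ ≤ M * B := mul_le_mul_of_nonneg_right hIM hB

end Pool.Agent.Work.MP_f2148a_nt.M56.S2
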