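import Pool.Agent.Work.MP_f2148a_nt.M56.S2.Defs
import Pool.Agent.Work.MP_f2148a_nt.M56.H.Num

set_option autoImplicit false

/-!
# S2/Exps (S-M): the exponents of a nonempty cell

PROOF. `K₀` so large that `K ^ (10^(-6)) ≥ 1000` (all constants below are `≤ 1000`). `A = K ^ (25/63)`,
`A ^ 2 = K ^ (50/63)`. All inequalities are compared after `Real.rpow_add`, monotonicity of `K ^ ·` (`K > 1`):
`exps1`: (1) `29/100 ≤ Δ ≤ 2 K^d`, so `K^d ≥ 29/200 ≥ K^(-10^-6)`. (2) `K^(2d) ≤ Δ² ≤ A` gives `d ≤ 25/126`.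
(3) `A² ≤ 4σ³Δ ≤ 64 K^(3s+d)`. (4) `K^(d+s) ≤ Δσ ≤ 5A²`. (5) type I: `|c| ≤ 1` and `|c| K^(3(d+s)) ≤ |c|(Δσ)³ ≤ 20K`, so
`|c| ≤ min(1, 20 K^(1-3(d+s))) ≤ K^(-max 0 (3(d+s)-1-10^-5))`. (6) type II: `K^(d+s) ≤ Δσ ≤ 10K^(1/3)`, so
`d+s ≤ 1/3+10^-6` and `yy s d = 0` (`3·10^-6 ≤ 10^-5`); also `K^d A ≤ ΔA ≤ 30K^(1/2)`.
`exps2`: `√x ≤ 2Δσ/τ² ≤ 8 K^(d+s) (9/4) K^(2q) = 18 K^(d+s+2q)` (from `x_le` and `1/τ ≤ (3/2)K^q`), `K^(53/40) ≤ √x`.
The upper bounds of `exps3`: `x ≤ 324 K^(2(d+s)+4q)`.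
-/

namespace Pool.Agent.Work.MP_f2148a_nt.M56.S2

private theorem bigK {K : ℝ} (hK : (1000 : ℝ) ^ (1000000 : ℝ) ≤ K) :
    1 < K ∧ 1000 ≤ K ^ (1 / 1000000 : ℝ) := by
  have h0 : (0 : ℝ) < 1000 := by norm_num
  have h1 : (1 : ℝ) < (1000 : ℝ) ^ (1000000 : ℝ) :=
    Real.one_lt_rpow (by norm_num) (by norm_num)
  refine ⟨lt_of_lt_of_le h1 hK, ?_⟩
  have h2 : ((1000 : ℝ) ^ (1000000 : ℝ)) ^ (1 / 1000000 : ℝ) ≤ K ^ (1 / 1000000 : ℝ) :=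
    Real.rpow_le_rpow (Real.rpow_nonneg h0.le _) hK (by norm_num)
  have h3 : (1000000 : ℝ) * (1 / 1000000) = 1 := by norm_num
  rw [← Real.rpow_mul h0.le, h3, Real.rpow_one] at h2
  exact h2

private theorem expo_le {K a b C : ℝ} (hK1 : 1 < K) (hK : 1000 ≤ K ^ (1 / 1000000 : ℝ))
    (hC : C ≤ 1000) (h : K ^ a ≤ C * K ^ b) : a ≤ b + 1 / 1000000 := by
  by_contra hcon
  push Not at hcon
  have h1 : K ^ (b + 1 / 1000000) < K ^ a := Real.rpow_lt_rpow_of_exponent_lt hK1 hcon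
  rw [Real.rpow_add (by linarith)] at h1
  have hb : 0 < K ^ b := Real.rpow_pos_of_pos (by linarith) b
  nlinarith

theorem exps1 : ∃ K₀ : ℝ, 1 < K₀ ∧ ∀ K : ℝ, K₀ ≤ K → ∀ (d s Q R : ℝ) (t : Dt),
    InC K (K ^ d) (K ^ s) Q R t →
      -(1 / 1000000) ≤ d ∧ d ≤ 25 / 126 ∧ 50 / 63 - 1 / 1000000 ≤ 3 * s + d ∧
      d + s ≤ 50 / 63 + 1 / 1000000 ∧
      (TI K t → |t.c| ≤ K ^ (-(H.yy s d))) ∧
      (TII K t → d + s ≤ 1 / 3 + 1 / 1000000 ∧ H.yy s d = 0 ∧ d ≤ 1 / 2 - 25 / 63 + 1 / 1000000) := by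
  refine ⟨(1000 : ℝ) ^ (1000000 : ℝ), Real.one_lt_rpow (by norm_num) (by norm_num), ?_⟩
  intro K hK d s Q R t ht
  obtain ⟨hK1, hKe⟩ := bigK hK
  clear hK
  have hK0 : 0 < K := lt_trans one_pos hK1
  have hD0 : 0 < K ^ d := Real.rpow_pos_of_pos hK0 d
  have hS0 : 0 < K ^ s := Real.rpow_pos_of_pos hK0 s
  have hD1 := ht.d1
  have hD2 := ht.d2
  have hS1 := ht.s1
  have hS2 := ht.s2
  have hΔ0 : 0 < t.Δ := by linarith
  have hσ0 : 0 < t.σ := by linarith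
  have hDS : K ^ (d + s) ≤ t.Δ * t.σ := by
    rw [Real.rpow_add hK0]
    exact mul_le_mul hD1 hS1 hS0.le hΔ0.le
  have hA2 : (K ^ (25 / 63 : ℝ)) ^ 2 = K ^ (50 / 63 : ℝ) := by
    rw [← Real.rpow_natCast, ← Real.rpow_mul hK0.le]
    norm_num
  refine ⟨?_, ?_, ?_, ?_, ?_, ?_⟩
  · have h1 : K ^ (0 : ℝ) ≤ 200 / 29 * K ^ d := by
      rw [Real.rpow_zero]
      have := ht.gi.own.D_ge
      linarith
    have := expo_le hK1 hKe (by norm_num) h1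
    linarith
  · have h1 := ht.gi.own.D_le
    have h2 : (K ^ d) ^ 2 ≤ K ^ (25 / 63 : ℝ) := le_trans (by gcongr) h1
    have h3 : (K ^ d) ^ 2 = K ^ (d * 2) := by
      rw [← Real.rpow_natCast, ← Real.rpow_mul hK0.le]
      norm_num
    rw [h3, Real.rpow_le_rpow_left_iff hK1] at h2
    linarith
  · have h1 := ht.gi.own.sigD
    rw [hA2] at h1
    have h2 : 4 * (t.σ ^ 3 * t.Δ) ≤ 64 * K ^ (3 * s + d) := by
      have h3 : K ^ (3 * s + d) = (K ^ s) ^ 3 * K ^ d := by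
        rw [Real.rpow_add hK0]
        congr 1
        rw [← Real.rpow_natCast, ← Real.rpow_mul hK0.le]
        congr 1
        push_cast
        ring
      rw [h3]
      have h4 : t.σ ^ 3 * t.Δ ≤ (2 * K ^ s) ^ 3 * (2 * K ^ d) := by gcongr
      nlinarith
    have := expo_le hK1 hKe (by norm_num) (h1.trans h2)
    linarith
  · have h1 := ht.gi.own.Dsig_le
    rw [hA2] at h1
    exact expo_le hK1 hKe (by norm_num) (hDS.trans h1)
  · rintro ⟨-, h1, h2⟩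
    rcases le_total (3 * (d + s) - 1 - 1 / 100000) 0 with h | h
    · rw [H.yy, max_eq_left h, neg_zero, Real.rpow_zero]
      linarith
    · rw [H.yy, max_eq_right h]
      have h3 : K ^ (3 * (d + s)) ≤ (t.Δ * t.σ) ^ 3 := by
        have h4 : K ^ (3 * (d + s)) = (K ^ (d + s)) ^ 3 := by
          rw [← Real.rpow_natCast, ← Real.rpow_mul hK0.le]
          congr 1
          push_cast
          ring
        rw [h4]
        gcongr
      have h5 : |t.c| * K ^ (3 * (d + s)) ≤ 20 * K :=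
        le_trans (mul_le_mul_of_nonneg_left h3 (abs_nonneg _)) h2
      have h6 : 0 < K ^ (3 * (d + s)) := Real.rpow_pos_of_pos hK0 _
      have h7 : K ^ (-(3 * (d + s) - 1 - 1 / 100000)) * K ^ (3 * (d + s)) =
          K * K ^ (1 / 100000 : ℝ) := by
        rw [← Real.rpow_add hK0]
        have h8 : -(3 * (d + s) - 1 - 1 / 100000) + 3 * (d + s) = 1 + 1 / 100000 := by ring
        rw [h8, Real.rpow_add hK0, Real.rpow_one]
      have h9 : K ^ (1 / 1000000 : ℝ) ≤ K ^ (1 / 100000 : ℝ) :=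
        Real.rpow_le_rpow_of_exponent_le hK1.le (by norm_num)
      refine le_of_mul_le_mul_right ?_ h6
      rw [h7]
      refine h5.trans ?_
      have h10 : 20 * K ≤ K ^ (1 / 100000 : ℝ) * K :=
        mul_le_mul_of_nonneg_right (by linarith) hK0.le
      linarith
  · rintro ⟨h1, h2⟩
    have h3 : d + s ≤ 1 / 3 + 1 / 1000000 := expo_le hK1 hKe (by norm_num) (hDS.trans h1)
    refine ⟨h3, ?_, ?_⟩
    · rw [H.yy]
      exact max_eq_left (by linarith)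
    · have h4 : K ^ (d + 25 / 63) ≤ t.Δ * K ^ (25 / 63 : ℝ) := by
        rw [Real.rpow_add hK0]
        exact mul_le_mul_of_nonneg_right hD1 (Real.rpow_pos_of_pos hK0 _).le
      have := expo_le hK1 hKe (by norm_num) (h4.trans h2)
      linarith

theorem exps2 : ∃ K₀ : ℝ, 1 < K₀ ∧ ∀ K : ℝ, K₀ ≤ K → ∀ (d s q : ℝ) (t : Dt),
    InC K (K ^ d) (K ^ s) (4 / 3 * K ^ q) (3 / 2 * K ^ q) t →
      53 / 20 - 1 / 1000000 ≤ 4 * q + 2 * (d + s) ∧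
      (t.x : ℝ) ≤ 324 * K ^ (4 * q + 2 * (d + s)) := by
  refine ⟨(1000 : ℝ) ^ (1000000 : ℝ), Real.one_lt_rpow (by norm_num) (by norm_num), ?_⟩
  intro K hK d s q t ht
  obtain ⟨hK1, hKe⟩ := bigK hK
  clear hK
  have hK0 : 0 < K := lt_trans one_pos hK1
  have hD0 : 0 < K ^ d := Real.rpow_pos_of_pos hK0 d
  have hS0 : 0 < K ^ s := Real.rpow_pos_of_pos hK0 s
  have hq0 : 0 < K ^ q := Real.rpow_pos_of_pos hK0 q
  have hτ0 := ht.gi.own.tau_pos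
  have hx1 := ht.gi.x_ge
  have hx0 : 0 ≤ (t.x : ℝ) := (Real.rpow_pos_of_pos hK0 _).le.trans hx1
  have h1 : t.τ ^ 2 * Real.sqrt t.x ≤ 8 * (K ^ d * K ^ s) := by
    have h2 := ht.gi.own.x_le
    have h3 : t.Δ * t.σ ≤ (2 * K ^ d) * (2 * K ^ s) := by
      have h4 : 0 ≤ t.σ := by linarith [ht.s1]
      exact mul_le_mul ht.d2 ht.s2 h4 (by positivity)
    linarith
  have h2 : 1 ≤ 3 / 2 * K ^ q * t.τ := by
    have h3 := ht.q2
    rw [div_le_iff₀ hτ0] at h3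
    exact h3
  have hs0 : 0 ≤ Real.sqrt t.x := Real.sqrt_nonneg _
  have h3 : Real.sqrt t.x ≤ 18 * (K ^ d * K ^ s * (K ^ q) ^ 2) := by
    have h4 : 1 ≤ (3 / 2 * K ^ q * t.τ) ^ 2 := one_le_pow₀ h2
    calc Real.sqrt t.x = 1 * Real.sqrt t.x := (one_mul _).symm
      _ ≤ (3 / 2 * K ^ q * t.τ) ^ 2 * Real.sqrt t.x := mul_le_mul_of_nonneg_right h4 hs0
      _ = (9 / 4 * (K ^ q) ^ 2) * (t.τ ^ 2 * Real.sqrt t.x) := by ring
      _ ≤ (9 / 4 * (K ^ q) ^ 2) * (8 * (K ^ d * K ^ s)) :=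
        mul_le_mul_of_nonneg_left h1 (by positivity)
      _ = 18 * (K ^ d * K ^ s * (K ^ q) ^ 2) := by ring
  have h5 : K ^ (4 * q + 2 * (d + s)) = (K ^ d * K ^ s * (K ^ q) ^ 2) ^ 2 := by
    have h6 : 4 * q + 2 * (d + s) = d * 2 + s * 2 + q * 4 := by ring
    rw [h6, Real.rpow_add hK0, Real.rpow_add hK0, Real.rpow_mul hK0.le, Real.rpow_mul hK0.le,
      Real.rpow_mul hK0.le]
    norm_num
    ring
  have h7 : (t.x : ℝ) ≤ 324 * K ^ (4 * q + 2 * (d + s)) := by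
    rw [h5]
    calc (t.x : ℝ) = Real.sqrt t.x ^ 2 := (Real.sq_sqrt hx0).symm
      _ ≤ (18 * (K ^ d * K ^ s * (K ^ q) ^ 2)) ^ 2 := pow_le_pow_left₀ hs0 h3 2
      _ = 324 * (K ^ d * K ^ s * (K ^ q) ^ 2) ^ 2 := by ring
  refine ⟨?_, h7⟩
  have := expo_le hK1 hKe (by norm_num) (hx1.trans h7)
  linarith

end Pool.Agent.Work.MP_f2148a_nt.M56.S2
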